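import Pool.Agent.Lib.MP_245544_coU.Base

namespace Pool.Agent.MP_245544_coT

/-- Lemma C with arms in a closed half plane. -/
theorem arms_bound {P Y : Type} [DecidableEq P] [DecidableEq Y] {H : Finset (P × Y)} {δ c : ℝ}
    {e : Y → ℝ × ℝ} {pt : P → ℝ × ℝ} {K : P → Y → Set (ℝ × ℝ)}
    (hK : ∀ x ∈ H, ∀ z ∈ K x.1 x.2, c ≤ fn δ z)
    (he : ∀ x ∈ H, fn δ (e x.2) = c)
    (hj : ∀ x ∈ H, JoinedIn (K x.1 x.2) (e x.2) (pt x.1))
    (hd : ∀ p p' q a u, p ≠ p' → (p, q) ∈ H → (p', q) ∈ H → (p, a) ∈ H → (p', u) ∈ H → a ≠ u →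
      Disjoint (K p a) (K p' u))
    (hne : ∀ p a u, (p, a) ∈ H → (p, u) ∈ H → a ≠ u → e a ≠ e u) :
    H.card ≤ 3 * (H.image Prod.fst).card + (H.image Prod.snd).card := by
  -- a point of the line is determined by its second coordinate
  have hline : ∀ p p' x y, (p, x) ∈ H → (p', y) ∈ H → (e x).2 = (e y).2 → e x = e y := by
    intro p p' x y h1 h2 h6
    have h8 := he _ h1
    have h9 := he _ h2
    simp only at h8 h9
    unfold fn at h8 h9
    rw [h6] at h8
    refine Prod.ext ?_ h6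
    linarith
  refine lemmaC (e := fun q => (e q).2) ⟨?_, ?_, ?_⟩
  · intro p p' q hpp h1 h2 a b u h3 h4 h5 hab haq hbq huq hua hub
    have hD : Disjoint (K p a ∪ K p b) (K p' q ∪ K p' u) :=
      Set.disjoint_union_left.2 ⟨Set.disjoint_union_right.2
        ⟨hd p p' q a q hpp h1 h2 h3 h2 haq, hd p p' q a u hpp h1 h2 h3 h5 (Ne.symm hua)⟩,
        Set.disjoint_union_right.2
        ⟨hd p p' q b q hpp h1 h2 h4 h2 hbq, hd p p' q b u hpp h1 h2 h4 h5 (Ne.symm hub)⟩⟩
    refine btw_iff_of_disjoint (δ := δ) (c := c) ?_ ?_ hD (he _ h3) (he _ h4) (he _ h1) (he _ h5)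
      ?_ ?_
    · rintro z (hz | hz)
      · exact hK _ h3 z hz
      · exact hK _ h4 z hz
    · rintro z (hz | hz)
      · exact hK _ h2 z hz
      · exact hK _ h5 z hz
    · exact ((hj _ h3).mono Set.subset_union_left).trans
        ((hj _ h4).symm.mono Set.subset_union_right)
    · exact ((hj _ h2).mono Set.subset_union_left).trans
        ((hj _ h5).symm.mono Set.subset_union_right)
  · intro p q q' h1 h2 h3 h4
    exact hne p q q' h1 h2 h3 (hline _ _ _ _ h1 h2 h4)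
  · intro p p' m hp h1 h2 a u h3 h4 hau h5
    have h6 := hline _ _ _ _ h3 h4 h5
    have h7 := hd p p' m a u hp h1 h2 h3 h4 hau
    have h8 : e a ∈ K p a := (hj _ h3).source_mem
    have h9 : e u ∈ K p' u := (hj _ h4).source_mem
    rw [← h6] at h9
    exact Set.disjoint_left.1 h7 h8 h9

end Pool.Agent.MP_245544_coT
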