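import Pool.Agent.Lib.MP_245544_coT.Final

/-! MP_245544_co: the bound `n (log n)^(1/t)`; basic definitions. -/

namespace Pool.Agent.MP_245544_coT

/-- Squared Euclidean norm. -/
def nsq (z : ℝ × ℝ) : ℝ := z.1 ^ 2 + z.2 ^ 2

variable {V : Type} {G : SimpleGraph V}

/-- `u` and `v` are joined by a walk of length at most `n`. -/
def Reach (G : SimpleGraph V) (u v : V) (n : ℕ) : Prop := ∃ w : G.Walk u v, w.length ≤ n

theorem Reach.refl (u : V) (n : ℕ) : Reach G u u n := ⟨.nil, by simp⟩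

theorem Reach.symm {u v : V} {n : ℕ} (h : Reach G u v n) : Reach G v u n := by
  obtain ⟨w, hw⟩ := h
  exact ⟨w.reverse, by rwa [SimpleGraph.Walk.length_reverse]⟩

theorem Reach.trans {u v w : V} {m n : ℕ} (h : Reach G u v m) (h' : Reach G v w n) :
    Reach G u w (m + n) := by
  obtain ⟨p, hp⟩ := h
  obtain ⟨q, hq⟩ := h'
  exact ⟨p.append q, by rw [SimpleGraph.Walk.length_append]; omega⟩

theorem Reach.mono {u v : V} {m n : ℕ} (h : Reach G u v m) (hmn : m ≤ n) : Reach G u v n := by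
  obtain ⟨p, hp⟩ := h
  exact ⟨p, hp.trans hmn⟩

theorem Reach.of_adj {u v : V} (h : G.Adj u v) : Reach G u v 1 := ⟨.cons h .nil, by simp⟩

theorem Drawing.NearPlane.mono {D : Drawing G} {m n : ℕ} (hD : D.NearPlane m) (h : n ≤ m) :
    D.NearPlane n := by
  rintro e he e' he' ⟨x, hx, x', hx', w, hw⟩
  exact hD e he e' he' ⟨x, hx, x', hx', w, hw.trans h⟩

/-- A forest of depth `i`: layers `C 0, …, C i`, pairwise disjoint, every vertex of a layer `j + 1 ≤ i`
has its parent in layer `j`. -/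
structure Forest (G : SimpleGraph V) (C : ℕ → Finset V) (π : V → V) (i : ℕ) : Prop where
  disj : ∀ j ≤ i, ∀ l ≤ i, j ≠ l → Disjoint (C j) (C l)
  mem : ∀ j < i, ∀ v ∈ C (j + 1), π v ∈ C j
  adj : ∀ j < i, ∀ v ∈ C (j + 1), G.Adj v (π v)

/-- The pairs `(z, π^n v)` with adjacent `z ∈ Z`, `v ∈ W`. -/
noncomputable def prs (G : SimpleGraph V) (π : V → V) (W Z : Finset V) (n : ℕ) : Finset (V × V) := by
  classical exact ((Z ×ˢ W).filter (fun x => G.Adj x.1 x.2)).image (fun x => (x.1, π^[n] x.2))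

theorem mem_prs {π : V → V} {W Z : Finset V} {n : ℕ} {x : V × V} :
    x ∈ prs G π W Z n ↔ x.1 ∈ Z ∧ ∃ v ∈ W, G.Adj x.1 v ∧ π^[n] v = x.2 := by
  classical
  unfold prs
  rw [Finset.mem_image]
  constructor
  · rintro ⟨y, hy, rfl⟩
    rw [Finset.mem_filter, Finset.mem_product] at hy
    exact ⟨hy.1.1, y.2, hy.1.2, hy.2, rfl⟩
  · rintro ⟨h1, v, h2, h3, h4⟩
    exact ⟨(x.1, v), Finset.mem_filter.2 ⟨Finset.mem_product.2 ⟨h1, h2⟩, h3⟩,
      Prod.ext rfl h4⟩

/-- The arm: the edge `zv` followed by the edges of the path from `v` to `π^n v`. -/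
def arm (D : Drawing G) (π : V → V) (z v : V) (n : ℕ) : Set (ℝ × ℝ) :=
  {y | y ∈ D.arc s(z, v) ∨ ∃ l < n, y ∈ D.arc s(π^[l] v, π^[l + 1] v)}

/-- The vertices of the arm. -/
def armV (π : V → V) (z v : V) (n : ℕ) : Set V := {y | y = z ∨ ∃ l ≤ n, y = π^[l] v}

/-- `A` consists of points of edges `uw` with `u ∈ F`, where `w ∈ F` or (`u` has colour `b` and the
point is not the point of `w`). -/
def Pcs (D : Drawing G) (col : V → Bool) (b : Bool) (F : Set V) (A : Set (ℝ × ℝ)) : Prop :=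
  ∀ y ∈ A, ∃ u w, G.Adj u w ∧ y ∈ D.arc s(u, w) ∧ u ∈ F ∧ (w ∈ F ∨ (col u = b ∧ D.pt w ≠ y))

/-- A threshold for the vertex set `S`: `L` are the vertices below. -/
structure Thr (D : Drawing G) (S L : Finset V) (δ c : ℝ) : Prop where
  sub : L ⊆ S
  hc : ∀ v, fn δ (D.pt v) ≠ c
  up : ∀ v ∈ S, v ∉ L → ∀ u ∈ S, G.Adj v u → ∀ y ∈ D.arc s(v, u), c < fn δ y
  ray : ∀ x ∈ L, ∃ z, G.Adj x z ∧ ∃ y ∈ D.arc s(x, z), fn δ y ≤ c

/-- Closed neighbourhoods of `L` inside `S`. -/
noncomputable def nbh (G : SimpleGraph V) (S L : Finset V) : ℕ → Finset V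
  | 0 => L
  | i + 1 => by classical exact S.filter (fun v => v ∈ nbh G S L i ∨ ∃ w ∈ nbh G S L i, G.Adj v w)

/-- The vertices of `S` at distance exactly `i` from `L`. -/
noncomputable def layer (G : SimpleGraph V) (S L : Finset V) : ℕ → Finset V
  | 0 => L
  | i + 1 => by classical exact nbh G S L (i + 1) \ nbh G S L i

/-- The neighbours of `v` in `S`. -/
noncomputable def nbrs (G : SimpleGraph V) (S : Finset V) (v : V) : Finset V := by
  classical exact S.filter (fun u => G.Adj v u)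

theorem mem_nbrs {S : Finset V} {v u : V} : u ∈ nbrs G S v ↔ u ∈ S ∧ G.Adj v u := by
  classical
  unfold nbrs
  rw [Finset.mem_filter]

/-- The number of edges between `W` and `Z` (for disjoint `W`, `Z`): adjacent pairs in `Z × W`. -/
noncomputable def ebt (G : SimpleGraph V) (W Z : Finset V) : ℕ := by
  classical exact ((Z ×ˢ W).filter (fun x => G.Adj x.1 x.2)).card

end Pool.Agent.MP_245544_coT
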