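import Mathlib

namespace Pool.Agent.MP_245544_coT

/-- A sequence with `a c(i+1) ≤ K (c i + 3 c(i+1) + c(i+2))` decays from both ends. -/
theorem decay {c : ℕ → ℕ} {N a s : ℕ} (hN : ∀ i, c i ≤ N) (ha : 2 * 3 ^ (s + 1) ≤ a)
    (h : ∀ i, i + 2 ≤ s → a * c (i + 1) ≤ 3 ^ (i + 2) * (c i + 3 * c (i + 1) + c (i + 2))) :
    ∀ j i, j ≤ i → i + j ≤ s → a ^ j * c i ≤ (4 * 3 ^ s) ^ j * N := by
  have key : ∀ i, i + 2 ≤ s → a * c (i + 1) ≤ 2 * 3 ^ s * (c i + c (i + 2)) := by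
    intro i hi
    have h1 := h i hi
    have h2 : (3 : ℕ) ^ (i + 2) ≤ 3 ^ s := Nat.pow_le_pow_right (by norm_num) hi
    have h3 : (3 : ℕ) ^ (i + 2) * (c i + c (i + 2)) ≤ 3 ^ s * (c i + c (i + 2)) :=
      Nat.mul_le_mul_right _ h2
    have h4 : 2 * (3 * (3 : ℕ) ^ (i + 2)) ≤ a := by
      calc 2 * (3 * (3 : ℕ) ^ (i + 2)) ≤ 2 * (3 * 3 ^ s) := by omega
        _ = 2 * 3 ^ (s + 1) := by rw [pow_succ]; ring
        _ ≤ a := ha
    have h5 : 2 * (3 * (3 : ℕ) ^ (i + 2)) * c (i + 1) ≤ a * c (i + 1) :=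
      Nat.mul_le_mul_right _ h4
    have h6 : (3 : ℕ) ^ (i + 2) * (c i + 3 * c (i + 1) + c (i + 2)) =
        3 ^ (i + 2) * (c i + c (i + 2)) + 3 * 3 ^ (i + 2) * c (i + 1) := by ring
    rw [h6] at h1
    have h7 : 2 * (3 * (3 : ℕ) ^ (i + 2)) * c (i + 1) =
        2 * (3 * 3 ^ (i + 2) * c (i + 1)) := by ring
    have h8 : 2 * 3 ^ s * (c i + c (i + 2)) = 2 * (3 ^ s * (c i + c (i + 2))) := by ring
    rw [h7] at h5
    rw [h8]
    omega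
  intro j
  induction j with
  | zero =>
    intro i _ _
    simpa using hN i
  | succ j ih =>
    intro i hji his
    obtain ⟨i, rfl⟩ : ∃ k, i = k + 1 := ⟨i - 1, by omega⟩
    have h1 := key i (by omega)
    have h2 := ih i (by omega) (by omega)
    have h3 := ih (i + 2) (by omega) (by omega)
    calc a ^ (j + 1) * c (i + 1) = a ^ j * (a * c (i + 1)) := by rw [pow_succ]; ring
      _ ≤ a ^ j * (2 * 3 ^ s * (c i + c (i + 2))) := Nat.mul_le_mul_left _ h1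
      _ = 2 * 3 ^ s * (a ^ j * c i + a ^ j * c (i + 2)) := by ring
      _ ≤ 2 * 3 ^ s * ((4 * 3 ^ s) ^ j * N + (4 * 3 ^ s) ^ j * N) :=
          Nat.mul_le_mul_left _ (Nat.add_le_add h2 h3)
      _ = (4 * 3 ^ s) ^ (j + 1) * N := by rw [pow_succ (4 * 3 ^ s) j]; ring

end Pool.Agent.MP_245544_coT
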