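import Pool.Agent.Lib.MP_245544_coU.Loc

namespace Pool.Agent.MP_245544_coT

variable {V : Type} {G : SimpleGraph V}

private theorem ebt_eq (W Z : Finset V) : ebt G W Z = ∑ z ∈ Z, (nbrs G W z).card := by
  classical
  unfold ebt nbrs
  rw [Finset.card_filter, Finset.sum_product]
  refine Finset.sum_congr rfl fun z _ => ?_
  rw [Finset.card_filter]

private theorem ebt_comm (W Z : Finset V) : ebt G W Z = ebt G Z W := by
  classical
  rw [ebt_eq, ebt_eq]
  unfold nbrs
  have h1 : ∀ z ∈ Z, (W.filter (fun u => G.Adj z u)).card = ∑ w ∈ W, if G.Adj z w then 1 else 0 :=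
    fun z _ => Finset.card_filter _ _
  have h2 : ∀ w ∈ W, (Z.filter (fun u => G.Adj w u)).card = ∑ z ∈ Z, if G.Adj z w then 1 else 0 := by
    intro w _
    rw [Finset.card_filter]
    refine Finset.sum_congr rfl fun z _ => ?_
    by_cases h : G.Adj w z
    · rw [if_pos h, if_pos h.symm]
    · rw [if_neg h, if_neg fun h' => h h'.symm]
  rw [Finset.sum_congr rfl h1, Finset.sum_congr rfl h2]
  exact Finset.sum_comm

private theorem ebt_split {col : V → Bool} (hcol : ∀ u v, G.Adj u v → col u ≠ col v)
    (W Z : Finset V) : ebt G W Z ≤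
      ebt G (W.filter (fun v => col v = true)) (Z.filter (fun v => col v = false)) +
      ebt G (W.filter (fun v => col v = false)) (Z.filter (fun v => col v = true)) := by
  classical
  unfold ebt
  refine (Finset.card_le_card ?_).trans (Finset.card_union_le _ _)
  intro x hx
  rw [Finset.mem_filter, Finset.mem_product] at hx
  have h1 := hcol _ _ hx.2
  rw [Finset.mem_union, Finset.mem_filter, Finset.mem_filter, Finset.mem_product,
    Finset.mem_product, Finset.mem_filter, Finset.mem_filter, Finset.mem_filter,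
    Finset.mem_filter]
  cases h2 : col x.2
  · right
    refine ⟨⟨⟨hx.1.1, ?_⟩, hx.1.2, rfl⟩, hx.2⟩
    cases h3 : col x.1
    · exact absurd (h3.trans h2.symm) h1
    · rfl
  · left
    refine ⟨⟨⟨hx.1.1, ?_⟩, hx.1.2, rfl⟩, hx.2⟩
    cases h3 : col x.1
    · rfl
    · exact absurd (h3.trans h2.symm) h1

private theorem card_split (col : V → Bool) (W : Finset V) :
    (W.filter (fun v => col v = true)).card + (W.filter (fun v => col v = false)).card =
      W.card := by
  have h : W.filter (fun v => col v = false) = W.filter (fun v => ¬ col v = true) := by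
    refine Finset.filter_congr fun v _ => ?_
    rw [Bool.not_eq_true]
  rw [h]
  exact Finset.card_filter_add_card_filter_not _

private theorem layer_edges2 [Finite V] (D : Drawing G) {m : ℕ} (hD : D.NearPlane m)
    {col : V → Bool} (hcol : ∀ u v, G.Adj u v → col u ≠ col v) {S L : Finset V} {δ c : ℝ}
    (hT : Thr D S L δ c) {i : ℕ} (him : 4 * (i + 1) ≤ m) {W Z : Finset V}
    (hW : W ⊆ layer G S L i) (hZ : Z ⊆ S) (hZL : ∀ z ∈ Z, z ∉ L)
    (hZC : ∀ z ∈ Z, ∀ j < i, z ∉ layer G S L j) :
    ebt G W Z ≤ 3 ^ (i + 1) * (Z.card + W.card) := by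
  have h1 := layer_edges D hD hcol hT him (b := true) (W := W.filter (fun v => col v = true))
    (Z := Z.filter (fun v => col v = false)) ((Finset.filter_subset _ _).trans hW)
    (fun v hv => (Finset.mem_filter.1 hv).2) ((Finset.filter_subset _ _).trans hZ)
    (fun z hz => hZL z (Finset.mem_filter.1 hz).1)
    (fun z hz => hZC z (Finset.mem_filter.1 hz).1)
  have h2 := layer_edges D hD hcol hT him (b := false) (W := W.filter (fun v => col v = false))
    (Z := Z.filter (fun v => col v = true)) ((Finset.filter_subset _ _).trans hW)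
    (fun v hv => (Finset.mem_filter.1 hv).2) ((Finset.filter_subset _ _).trans hZ)
    (fun z hz => hZL z (Finset.mem_filter.1 hz).1)
    (fun z hz => hZC z (Finset.mem_filter.1 hz).1)
  refine (ebt_split hcol W Z).trans ((Nat.add_le_add h1 h2).trans (le_of_eq ?_))
  rw [← Nat.mul_add]
  congr 1
  have h3 := card_split col W
  have h4 := card_split col Z
  omega

/-- Edges between two consecutive layers. -/
theorem layer_cut [Finite V] (D : Drawing G) {m : ℕ} (hD : D.NearPlane m) {col : V → Bool}
    (hcol : ∀ u v, G.Adj u v → col u ≠ col v) {S L : Finset V} {δ c : ℝ} (hT : Thr D S L δ c)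
    {i : ℕ} (him : 4 * (i + 1) ≤ m) :
    ebt G (layer G S L i) (layer G S L (i + 1)) ≤
      3 ^ (i + 1) * ((layer G S L (i + 1)).card + (layer G S L i).card) := by
  refine layer_edges2 D hD hcol hT him (Finset.Subset.refl _) (layer_subset hT.sub _) ?_ ?_
  · intro z hz hzL
    exact (Finset.disjoint_left.1 (layer_disjoint hT.sub (Nat.succ_ne_zero i))) hz hzL
  · intro z hz j hj hzj
    exact (Finset.disjoint_left.1 (layer_disjoint hT.sub (by omega : i + 1 ≠ j))) hz hzj

/-- The degree inequality. -/
theorem deg_ineq [Finite V] (D : Drawing G) {m : ℕ} (hD : D.NearPlane m) {col : V → Bool}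
    (hcol : ∀ u v, G.Adj u v → col u ≠ col v) {S L : Finset V} {δ c : ℝ} (hT : Thr D S L δ c)
    {i : ℕ} (him : 4 * (i + 2) ≤ m) {a : ℕ} (ha : ∀ v ∈ S, a ≤ (nbrs G S v).card) :
    a * (layer G S L (i + 1)).card ≤ 3 ^ (i + 2) * ((layer G S L i).card +
      3 * (layer G S L (i + 1)).card + (layer G S L (i + 2)).card) := by
  classical
  have h1 : a * (layer G S L (i + 1)).card ≤ ∑ v ∈ layer G S L (i + 1), (nbrs G S v).card := by
    rw [mul_comm, ← smul_eq_mul]
    exact Finset.card_nsmul_le_sum _ _ _ fun v hv => ha v (layer_subset hT.sub _ hv)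
  have h2 : ∑ v ∈ layer G S L (i + 1), (nbrs G S v).card ≤
      ∑ v ∈ layer G S L (i + 1), ((nbrs G (layer G S L i) v).card +
        (nbrs G (layer G S L (i + 1) ∪ layer G S L (i + 2)) v).card) := by
    refine Finset.sum_le_sum fun v hv => ?_
    refine (Finset.card_le_card ?_).trans (Finset.card_union_le _ _)
    intro u hu
    rw [mem_nbrs] at hu
    rw [Finset.mem_union, mem_nbrs, mem_nbrs, Finset.mem_union]
    rcases layer_nbr hT.sub hv hu.1 hu.2 with h | h | h
    · exact Or.inl ⟨h, hu.2⟩
    · exact Or.inr ⟨Or.inl h, hu.2⟩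
    · exact Or.inr ⟨Or.inr h, hu.2⟩
  have e1 := ebt_eq (G := G) (layer G S L i) (layer G S L (i + 1))
  have e2 := ebt_eq (G := G) (layer G S L (i + 1) ∪ layer G S L (i + 2)) (layer G S L (i + 1))
  rw [ebt_comm] at e2
  rw [Finset.sum_add_distrib, ← e1, ← e2] at h2
  have h3 := layer_cut D hD hcol hT (i := i) (by omega)
  have h4 : ebt G (layer G S L (i + 1)) (layer G S L (i + 1) ∪ layer G S L (i + 2)) ≤
      3 ^ (i + 1 + 1) * ((layer G S L (i + 1) ∪ layer G S L (i + 2)).card +
        (layer G S L (i + 1)).card) := by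
    refine layer_edges2 D hD hcol hT (i := i + 1) (by omega) (Finset.Subset.refl _)
      (Finset.union_subset (layer_subset hT.sub _) (layer_subset hT.sub _)) ?_ ?_
    · intro z hz hzL
      rcases Finset.mem_union.1 hz with h | h
      · exact (Finset.disjoint_left.1 (layer_disjoint hT.sub (Nat.succ_ne_zero i))) h hzL
      · exact (Finset.disjoint_left.1 (layer_disjoint hT.sub (Nat.succ_ne_zero (i + 1)))) h hzL
    · intro z hz j hj hzj
      rcases Finset.mem_union.1 hz with h | h
      · exact (Finset.disjoint_left.1 (layer_disjoint hT.sub (by omega : i + 1 ≠ j))) h hzj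
      · exact (Finset.disjoint_left.1 (layer_disjoint hT.sub (by omega : i + 2 ≠ j))) h hzj
  have h5 := Finset.card_union_le (layer G S L (i + 1)) (layer G S L (i + 2))
  have h6 : (3 : ℕ) ^ (i + 1) ≤ 3 ^ (i + 2) := Nat.pow_le_pow_right (by norm_num) (by omega)
  calc a * (layer G S L (i + 1)).card
      ≤ ebt G (layer G S L i) (layer G S L (i + 1)) +
        ebt G (layer G S L (i + 1)) (layer G S L (i + 1) ∪ layer G S L (i + 2)) := h1.trans h2
    _ ≤ 3 ^ (i + 2) * ((layer G S L (i + 1)).card + (layer G S L i).card) +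
        3 ^ (i + 2) * ((layer G S L (i + 1)).card + (layer G S L (i + 2)).card +
          (layer G S L (i + 1)).card) := by
        refine Nat.add_le_add (h3.trans (Nat.mul_le_mul_right _ h6)) (h4.trans ?_)
        exact Nat.mul_le_mul_left _ (by omega)
    _ = _ := by ring

end Pool.Agent.MP_245544_coT
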