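import Pool.Agent.Lib.MP_245544_coU.ThrU
import Pool.Agent.Lib.MP_245544_coU.Deg
import Pool.Agent.Lib.MP_245544_coU.Decay

namespace Pool.Agent.MP_245544_coT

variable {V : Type} {G : SimpleGraph V}

/-- The edges leaving a neighbourhood of `L` join two consecutive layers. -/
private theorem ebt_nbh_le [DecidableEq V] {S L : Finset V} (hL : L ⊆ S) (i : ℕ) :
    ebt G (nbh G S L i) (S \ nbh G S L i) ≤ ebt G (layer G S L i) (layer G S L (i + 1)) := by
  classical
  unfold ebt
  apply Finset.card_le_card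
  intro x hx
  rw [Finset.mem_filter, Finset.mem_product, Finset.mem_sdiff] at hx
  obtain ⟨⟨⟨hz, hz'⟩, hw⟩, hadj⟩ := hx
  obtain ⟨h1, h2⟩ := cut_edge hL hw hz hz' hadj.symm
  exact Finset.mem_filter.2 ⟨Finset.mem_product.2 ⟨h2, h1⟩, hadj⟩

/-- A balanced cut with very few edges. -/
theorem cut_exists [Finite V] [DecidableEq V] (D : Drawing G) {t : ℕ} (ht : 1 ≤ t)
    (hD : D.NearPlane (8 * t - 4)) {col : V → Bool}
    (hcol : ∀ u v, G.Adj u v → col u ≠ col v) {S : Finset V} (hS : S.Nonempty) {a : ℕ}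
    (ha : 12 * t * (4 * 3 ^ (2 * t)) ≤ a) (hdeg : ∀ v ∈ S, a ≤ (nbrs G S v).card) :
    ∃ A ⊆ S, 4 * A.card ≤ 3 * S.card ∧ 4 * (S \ A).card ≤ 3 * S.card ∧
      a ^ (t - 1) * ebt G A (S \ A) ≤ (4 * 3 ^ (2 * t)) ^ t * S.card := by
  obtain ⟨r, rfl⟩ : ∃ r, t = r + 1 := ⟨t - 1, by omega⟩
  have h9 : (3 : ℕ) ^ (2 * (r + 1)) = 3 * 3 ^ (2 * r + 1) := by
    rw [show 2 * (r + 1) = (2 * r + 1) + 1 by ring, pow_succ]; ring
  have hpos : 3 ≤ 3 ^ (2 * r + 1) := by
    calc (3 : ℕ) = 3 ^ 1 := by norm_num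
      _ ≤ 3 ^ (2 * r + 1) := Nat.pow_le_pow_right (by norm_num) (by omega)
  set Q : ℕ := 3 ^ (2 * r + 1) with hQ
  rw [h9] at ha
  have ha2 : 12 * (4 * (3 * Q)) ≤ a := by
    refine le_trans ?_ ha
    apply Nat.mul_le_mul_right
    omega
  have ha14 : 14 ≤ a := by omega
  obtain ⟨L, δ, c, hT, hL1, hL2⟩ := exists_thr D (hD.mono (by omega)) hcol hS ha14 hdeg
  have hLS := hT.sub
  have hN : ∀ i, (layer G S L i).card ≤ S.card := fun i =>
    Finset.card_le_card (layer_subset hLS i)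
  have hdec := decay (c := fun i => (layer G S L i).card) (N := S.card) (a := a) (s := 2 * r + 1)
    hN (by rw [pow_succ, ← hQ]; omega)
    (fun i hi => deg_ineq D hD hcol hT (i := i) (by omega) hdeg)
  rw [← hQ] at hdec
  have hsmall : ∀ j ∈ Finset.range r, 36 * (r + 1) * (layer G S L (j + 1)).card ≤ S.card := by
    intro j hj
    have hj' := Finset.mem_range.1 hj
    have h1 := hdec 1 (j + 1) (by omega) (by omega)
    simp only [pow_one] at h1
    have h2 : (4 * Q) * (36 * (r + 1) * (layer G S L (j + 1)).card) ≤ (4 * Q) * S.card := by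
      calc (4 * Q) * (36 * (r + 1) * (layer G S L (j + 1)).card)
          = (12 * (r + 1) * (4 * (3 * Q))) * (layer G S L (j + 1)).card := by ring
        _ ≤ a * (layer G S L (j + 1)).card := Nat.mul_le_mul_right _ ha
        _ ≤ (4 * Q) * S.card := h1
    exact Nat.le_of_mul_le_mul_left h2 (by omega)
  have hsum : 36 * ∑ j ∈ Finset.range r, (layer G S L (j + 1)).card ≤ S.card := by
    have h1 : ∑ j ∈ Finset.range r, 36 * (r + 1) * (layer G S L (j + 1)).card ≤
        ∑ _j ∈ Finset.range r, S.card := Finset.sum_le_sum hsmall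
    rw [← Finset.mul_sum, Finset.sum_const, Finset.card_range, smul_eq_mul] at h1
    have h2 : (r + 1) * (36 * ∑ j ∈ Finset.range r, (layer G S L (j + 1)).card) ≤
        (r + 1) * S.card := by
      calc (r + 1) * (36 * ∑ j ∈ Finset.range r, (layer G S L (j + 1)).card)
          = 36 * (r + 1) * ∑ j ∈ Finset.range r, (layer G S L (j + 1)).card := by ring
        _ ≤ r * S.card := h1
        _ ≤ (r + 1) * S.card := Nat.mul_le_mul_right _ (by omega)
    exact Nat.le_of_mul_le_mul_left h2 (by omega)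
  have hA := card_nbh_le (G := G) hLS r
  rw [Finset.sum_range_succ'] at hA
  have hL0 : (layer G S L 0).card = L.card := rfl
  rw [hL0] at hA
  refine ⟨nbh G S L r, nbh_subset hLS r, ?_, ?_, ?_⟩
  · omega
  · have h1 : (S \ nbh G S L r).card ≤ (S \ L).card :=
      Finset.card_le_card (Finset.sdiff_subset_sdiff (Finset.Subset.refl S)
        (nbh_mono (G := G) hLS (Nat.zero_le r)))
    omega
  · rw [Nat.add_sub_cancel]
    have h1 := (ebt_nbh_le (G := G) hLS r).trans (layer_cut D hD hcol hT (i := r) (by omega))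
    have h2 := hdec r r le_rfl (by omega)
    have h3 := hdec r (r + 1) (by omega) (by omega)
    have hX : (4 * Q) ^ r ≤ (4 * 3 ^ (2 * (r + 1))) ^ r := by
      apply Nat.pow_le_pow_left
      rw [h9]
      omega
    have hY : 3 ^ (r + 1) * 2 ≤ 4 * 3 ^ (2 * (r + 1)) := by
      have : (3 : ℕ) ^ (r + 1) ≤ 3 ^ (2 * (r + 1)) :=
        Nat.pow_le_pow_right (by norm_num) (by omega)
      omega
    calc a ^ r * ebt G (nbh G S L r) (S \ nbh G S L r)
        ≤ a ^ r * (3 ^ (r + 1) * ((layer G S L (r + 1)).card + (layer G S L r).card)) :=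
          Nat.mul_le_mul_left _ h1
      _ = 3 ^ (r + 1) * (a ^ r * (layer G S L (r + 1)).card + a ^ r * (layer G S L r).card) := by
          ring
      _ ≤ 3 ^ (r + 1) * ((4 * Q) ^ r * S.card + (4 * Q) ^ r * S.card) :=
          Nat.mul_le_mul_left _ (Nat.add_le_add h3 h2)
      _ = (4 * Q) ^ r * (3 ^ (r + 1) * 2) * S.card := by ring
      _ ≤ (4 * 3 ^ (2 * (r + 1))) ^ r * (4 * 3 ^ (2 * (r + 1))) * S.card :=
          Nat.mul_le_mul_right _ (Nat.mul_le_mul hX hY)
      _ = (4 * 3 ^ (2 * (r + 1))) ^ (r + 1) * S.card := by rw [pow_succ]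

end Pool.Agent.MP_245544_coT
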