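import Pool.Agent.Lib.MP_245544_coU.Base

namespace Pool.Agent.MP_245544_coT

open Set

private theorem dray_cont (q : ℝ × ℝ) : Continuous fun z : ℝ × ℝ => nsq (z - q) := by
  unfold nsq
  fun_prop

private theorem dray_pos {z : ℝ × ℝ} (hz : z ≠ 0) : 0 < nsq z := by
  unfold nsq
  rcases eq_or_ne z.1 0 with h1 | h1
  · rcases eq_or_ne z.2 0 with h2 | h2
    · exact absurd (Prod.ext h1 h2) hz
    · have h3 : 0 < z.2 ^ 2 := by positivity
      have h4 : 0 ≤ z.1 ^ 2 := sq_nonneg _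
      linarith
  · have h3 : 0 < z.1 ^ 2 := by positivity
    have h4 : 0 ≤ z.2 ^ 2 := sq_nonneg _
    linarith

private theorem dray_zero : nsq 0 = 0 := by
  unfold nsq
  simp

private theorem dray_joinedIn {γ : unitInterval → ℝ × ℝ} (hγ : Continuous γ) (τ : unitInterval) :
    JoinedIn (γ '' Set.Iic τ) (γ 0) (γ τ) := by
  refine ⟨⟨⟨fun t => γ (t * τ), ?_⟩, ?_, ?_⟩, ?_⟩
  · exact hγ.comp (continuous_id.mul continuous_const)
  · change γ (0 * τ) = γ 0
    rw [zero_mul]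
  · change γ (1 * τ) = γ τ
    rw [one_mul]
  · intro t
    exact ⟨t * τ, unitInterval.mul_le_right, rfl⟩

variable {V : Type} {G : SimpleGraph V}

/-- The part of the edge `px` from `p` to its first point on a small circle around the point of `x`. -/
theorem Drawing.exists_disc_ray (D : Drawing G) {p x : V} (h : G.Adj p x) {ρ : ℝ} (hρ : 0 < ρ)
    (hp : ρ < nsq (D.pt p - D.pt x)) :
    ∃ (r : Set (ℝ × ℝ)) (e : ℝ × ℝ), r ⊆ D.arc s(p, x) ∧ (∀ z ∈ r, ρ ≤ nsq (z - D.pt x)) ∧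
      (∀ z ∈ r, nsq (z - D.pt x) = ρ → z = e) ∧ nsq (e - D.pt x) = ρ ∧
      JoinedIn r (D.pt p) e ∧ D.pt x ∉ r := by
  obtain ⟨γ, hγ, hinj, h0, h1, hr⟩ := D.isArc p x h
  have hf : Continuous fun t => nsq (γ t - D.pt x) := (dray_cont (D.pt x)).comp hγ
  have hcl : IsClosed {t : unitInterval | nsq (γ t - D.pt x) ≤ ρ} := isClosed_le hf continuous_const
  have hne : {t : unitInterval | nsq (γ t - D.pt x) ≤ ρ}.Nonempty := by
    refine ⟨1, ?_⟩
    change nsq (γ 1 - D.pt x) ≤ ρ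
    rw [h1, sub_self, dray_zero]
    exact hρ.le
  obtain ⟨τ, hτ⟩ := hcl.isCompact.exists_isLeast hne
  have hlt : ∀ t, t < τ → ρ < nsq (γ t - D.pt x) := by
    intro t ht
    by_contra hcon
    exact absurd (hτ.2 (not_lt.mp hcon)) (not_le.mpr ht)
  have h0τ : (0 : unitInterval) < τ := by
    rcases lt_or_ge (0 : unitInterval) τ with h | h
    · exact h
    · exfalso
      have h' : τ = 0 := le_antisymm h (unitInterval.nonneg')
      have h2 : nsq (γ τ - D.pt x) ≤ ρ := hτ.1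
      rw [h', h0] at h2
      exact absurd hp (not_lt.mpr h2)
  have hge : ρ ≤ nsq (γ τ - D.pt x) := by
    have hcl2 : IsClosed {t : unitInterval | ρ ≤ nsq (γ t - D.pt x)} := isClosed_le continuous_const hf
    have hsub : closure (Iio τ) ⊆ {t : unitInterval | ρ ≤ nsq (γ t - D.pt x)} :=
      closure_minimal (fun t ht => (hlt t ht).le) hcl2
    apply hsub
    have hni : (Iio τ).Nonempty := ⟨(0 : unitInterval), h0τ⟩
    rw [closure_Iio' hni]
    exact Set.mem_Iic.mpr le_rfl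
  have heq : nsq (γ τ - D.pt x) = ρ := le_antisymm hτ.1 hge
  refine ⟨γ '' Set.Iic τ, γ τ, ?_, ?_, ?_, heq, ?_, ?_⟩
  · rw [← hr]
    exact image_subset_range _ _
  · rintro z ⟨t, ht, rfl⟩
    rcases lt_or_eq_of_le (Set.mem_Iic.mp ht) with h | h
    · exact (hlt t h).le
    · rw [h]
      exact hge
  · rintro z ⟨t, ht, rfl⟩ hz
    rcases lt_or_eq_of_le (Set.mem_Iic.mp ht) with h | h
    · exact absurd hz (hlt t h).ne'
    · rw [h]
  · rw [← h0]
    exact dray_joinedIn hγ τ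
  · rintro ⟨t, ht, hteq⟩
    have h2 : t = 1 := hinj (hteq.trans h1.symm)
    have h3 : τ = 1 := by
      rw [h2] at ht
      exact le_antisymm unitInterval.le_one' (Set.mem_Iic.mp ht)
    rw [h3, h1, sub_self, dray_zero] at heq
    exact absurd heq hρ.ne

/-- A small circle around the point of `x` that encloses no point of an edge not at `x`. -/
theorem Drawing.exists_radius [Finite V] (D : Drawing G) (x : V) :
    ∃ ρ : ℝ, 0 < ρ ∧ (∀ e ∈ G.edgeSet, x ∉ e → ∀ z ∈ D.arc e, ρ < nsq (z - D.pt x)) ∧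
      ∀ v, v ≠ x → ρ < nsq (D.pt v - D.pt x) := by
  classical
  have hfs : Finite (Sym2 V) := Quot.finite _
  have hA : ∀ e : Sym2 V, ∃ ρ : ℝ, 0 < ρ ∧ (e ∈ G.edgeSet → x ∉ e →
      ∀ z ∈ D.arc e, ρ < nsq (z - D.pt x)) := by
    intro e
    by_cases he : e ∈ G.edgeSet ∧ x ∉ e ∧ (D.arc e).Nonempty
    · obtain ⟨he1, he2, he3⟩ := he
      obtain ⟨z, hz, hmin⟩ := (D.isCompact_arc he1).exists_isMinOn he3
        (dray_cont (D.pt x)).continuousOn
      have hzx : z - D.pt x ≠ 0 := by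
        intro h0
        rw [sub_eq_zero] at h0
        rw [h0] at hz
        exact he2 (D.avoid e he1 x hz)
      have hpos := dray_pos hzx
      refine ⟨nsq (z - D.pt x) / 2, by positivity, fun _ _ w hw => ?_⟩
      have h1 : nsq (z - D.pt x) ≤ nsq (w - D.pt x) := hmin hw
      linarith
    · refine ⟨1, one_pos, fun h1 h2 z hz => ?_⟩
      exact absurd ⟨h1, h2, ⟨z, hz⟩⟩ he
  have hB : ∀ v : V, ∃ ρ : ℝ, 0 < ρ ∧ (v ≠ x → ρ < nsq (D.pt v - D.pt x)) := by
    intro v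
    by_cases hv : v = x
    · exact ⟨1, one_pos, fun h => absurd hv h⟩
    · have h1 : D.pt v - D.pt x ≠ 0 := fun h0 => hv (D.pt_injective (sub_eq_zero.1 h0))
      have h2 := dray_pos h1
      exact ⟨nsq (D.pt v - D.pt x) / 2, by positivity, fun _ => by linarith⟩
  choose f hf0 hf using hA
  choose g hg0 hg using hB
  have hF : ∀ {ι : Type} [Finite ι] (f : ι → ℝ), (∀ i, 0 < f i) → ∃ ρ : ℝ, 0 < ρ ∧ ∀ i, ρ ≤ f i := by
    intro ι _ f h0
    rcases isEmpty_or_nonempty ι with hi | hi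
    · exact ⟨1, one_pos, fun i => hi.elim i⟩
    · obtain ⟨i, hi'⟩ := Finite.exists_min f
      exact ⟨f i, h0 i, hi'⟩
  obtain ⟨ρ₁, h1, h1'⟩ := hF f hf0
  obtain ⟨ρ₂, h2, h2'⟩ := hF g hg0
  refine ⟨min ρ₁ ρ₂, lt_min h1 h2, fun e he hx z hz => ?_, fun v hv => ?_⟩
  · exact ((min_le_left _ _).trans (h1' e)).trans_lt (hf e he hx z hz)
  · exact ((min_le_right _ _).trans (h2' v)).trans_lt (hg v hv)

end Pool.Agent.MP_245544_coT
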