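import Pool.Agent.Lib.MP_245544_coU.Base

namespace Pool.Agent.MP_245544_coT

variable {V : Type} {G : SimpleGraph V} {C : ℕ → Finset V} {π : V → V} {i : ℕ}

theorem Forest.iter_mem (hF : Forest G C π i) {v : V} (hv : v ∈ C i) {l : ℕ} (hl : l ≤ i) :
    π^[l] v ∈ C (i - l) := by
  induction l with
  | zero => exact hv
  | succ l ih =>
    rw [Function.iterate_succ_apply']
    refine hF.mem (i - (l + 1)) (by omega) _ ?_
    have h1 : i - (l + 1) + 1 = i - l := by omega
    rw [h1]
    exact ih (by omega)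

theorem Forest.iter_adj (hF : Forest G C π i) {v : V} (hv : v ∈ C i) {l : ℕ} (hl : l < i) :
    G.Adj (π^[l] v) (π^[l + 1] v) := by
  rw [Function.iterate_succ_apply']
  refine hF.adj (i - (l + 1)) (by omega) _ ?_
  have h1 : i - (l + 1) + 1 = i - l := by omega
  rw [h1]
  exact hF.iter_mem hv hl.le

theorem Forest.iter_reach (hF : Forest G C π i) {v : V} (hv : v ∈ C i) {l n : ℕ} (hln : l ≤ n)
    (hn : n ≤ i) : Reach G (π^[l] v) (π^[n] v) (n - l) := by
  induction n with
  | zero =>
    have h1 : l = 0 := by omega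
    subst h1
    exact Reach.refl _ _
  | succ n ih =>
    rcases Nat.lt_or_ge n l with h1 | h1
    · have h2 : l = n + 1 := by omega
      subst h2
      exact Reach.refl _ _
    · have h2 := (ih h1 (by omega)).trans (Reach.of_adj (hF.iter_adj hv (by omega : n < i)))
      exact h2.mono (by omega)

theorem Forest.iter_ne (hF : Forest G C π i) {v v' : V} (hv : v ∈ C i) (hv' : v' ∈ C i) {n : ℕ}
    (hn : n ≤ i) (h : π^[n] v ≠ π^[n] v') {l l' : ℕ} (hl : l ≤ n) (hl' : l' ≤ n) :
    π^[l] v ≠ π^[l'] v' := by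
  intro h1
  have h2 := hF.iter_mem hv (hl.trans hn)
  have h3 := hF.iter_mem hv' (hl'.trans hn)
  by_cases h4 : l = l'
  · subst h4
    apply h
    have h5 : n = (n - l) + l := by omega
    rw [h5, Function.iterate_add_apply, Function.iterate_add_apply, h1]
  · rw [h1] at h2
    exact Finset.disjoint_left.1 (hF.disj (i - l) (by omega) (i - l') (by omega) (by omega)) h2 h3

theorem Forest.iter_col (hF : Forest G C π i) {col : V → Bool}
    (hcol : ∀ u v, G.Adj u v → col u ≠ col v) {v v' : V} (hv : v ∈ C i) (hv' : v' ∈ C i)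
    (hc : col v = col v') {n : ℕ} (hn : n ≤ i) : col (π^[n] v) = col (π^[n] v') := by
  induction n with
  | zero => exact hc
  | succ n ih =>
    have h1 := ih (by omega)
    have h2 := hcol _ _ (hF.iter_adj hv (by omega : n < i))
    have h3 := hcol _ _ (hF.iter_adj hv' (by omega : n < i))
    rw [h1] at h2
    revert h2 h3
    cases col (π^[n] v') <;> cases col (π^[n + 1] v) <;> cases col (π^[n + 1] v') <;> simp

/-- Every vertex of the arm is near its top. -/
theorem Forest.reach_top (hF : Forest G C π i) {z v : V} (hv : v ∈ C i) (hz : G.Adj z v) {n : ℕ}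
    (hn : n ≤ i) {y : V} (hy : y ∈ armV π z v n) : Reach G y (π^[n] v) (n + 1) := by
  rcases hy with rfl | ⟨l, hl, rfl⟩
  · have h1 := (Reach.of_adj hz).trans (hF.iter_reach hv (Nat.zero_le n) hn)
    exact h1.mono (by omega)
  · exact (hF.iter_reach hv hl hn).mono (by omega)

/-- Every vertex of the arm is near `z`. -/
theorem Forest.reach_z (hF : Forest G C π i) {z v : V} (hv : v ∈ C i) (hz : G.Adj z v) {n : ℕ}
    (hn : n ≤ i) {y : V} (hy : y ∈ armV π z v n) : Reach G z y (n + 1) := by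
  rcases hy with rfl | ⟨l, hl, rfl⟩
  · exact Reach.refl _ _
  · have h1 := (Reach.of_adj hz).trans (hF.iter_reach hv (Nat.zero_le l) (hl.trans hn))
    exact h1.mono (by omega)

theorem Forest.armV_disjoint (hF : Forest G C π i) {z z' v v' : V} (hv : v ∈ C i) (hv' : v' ∈ C i)
    {n : ℕ} (hn : n ≤ i) (h : π^[n] v ≠ π^[n] v') (hzz : z ≠ z') (hz : ∀ l ≤ n, z ≠ π^[l] v')
    (hz' : ∀ l ≤ n, z' ≠ π^[l] v) : Disjoint (armV π z v n) (armV π z' v' n) := by
  rw [Set.disjoint_left]
  rintro y (rfl | ⟨l, hl, rfl⟩) (h1 | ⟨l', hl', h1⟩)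
  · exact hzz h1
  · exact hz l' hl' h1
  · exact hz' l hl h1.symm
  · exact hF.iter_ne hv hv' hn h hl hl' h1

end Pool.Agent.MP_245544_coT
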