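import Pool.Agent.Lib.MP_245544_coU.Base
import Pool.Agent.Lib.MP_245544_coT.Near
import Pool.Agent.Lib.MP_245544_coT.Ray

namespace Pool.Agent.MP_245544_coT

variable {V : Type} {G : SimpleGraph V} {D : Drawing G} {col : V → Bool} {b : Bool}

theorem Pcs.union {F : Set V} {A B : Set (ℝ × ℝ)} (hA : Pcs D col b F A) (hB : Pcs D col b F B) :
    Pcs D col b F (A ∪ B) := by
  rintro y (hy | hy)
  · exact hA y hy
  · exact hB y hy

theorem Pcs.mono {F F' : Set V} {A : Set (ℝ × ℝ)} (hA : Pcs D col b F A) (h : F ⊆ F') :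
    Pcs D col b F' A := by
  intro y hy
  obtain ⟨u, w, h1, h2, h3, h4⟩ := hA y hy
  refine ⟨u, w, h1, h2, h h3, ?_⟩
  rcases h4 with h4 | h4
  · exact Or.inl (h h4)
  · exact Or.inr h4

/-- Pieces of near edges with disjoint vertex sets are disjoint. -/
theorem pcs_disjoint {m : ℕ} (hD : D.NearPlane m) (hcol : ∀ u v, G.Adj u v → col u ≠ col v)
    {F F' : Set V} {A B : Set (ℝ × ℝ)} (hA : Pcs D col b F A) (hB : Pcs D col b F' B)
    (hF : Disjoint F F') (hr : ∀ u ∈ F, ∀ u' ∈ F', Reach G u u' m) : Disjoint A B := by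
  rw [Set.disjoint_left]
  intro y hyA hyB
  obtain ⟨u, w, h1, h2, h3, h4⟩ := hA y hyA
  obtain ⟨u', w', h1', h2', h3', h4'⟩ := hB y hyB
  have hdis : ∀ x, x ∈ F → x ∈ F' → False := fun x hx hx' => Set.disjoint_left.1 hF hx hx'
  by_cases he : s(u, w) = s(u', w')
  · rcases Sym2.eq_iff.1 he with ⟨h5, -⟩ | ⟨h5, h6⟩
    · subst h5
      exact hdis u h3 h3'
    · subst h5
      subst h6
      rcases h4 with h4 | ⟨h4, -⟩
      · exact hdis w h4 h3'
      · rcases h4' with h4' | ⟨h4', -⟩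
        · exact hdis u h3 h4'
        · exact hcol u w h1 (h4.trans h4'.symm)
  · obtain ⟨v, hv, hv', hyv⟩ := hD.inter ((SimpleGraph.mem_edgeSet G).2 h1)
      ((SimpleGraph.mem_edgeSet G).2 h1') he
      ⟨u, Sym2.mem_mk_left u w, u', Sym2.mem_mk_left u' w', hr u h3 u' h3'⟩ h2 h2'
    have hvF : v ∈ F := by
      rcases Sym2.mem_iff.1 hv with h5 | h5
      · rw [h5]
        exact h3
      · rcases h4 with h4 | ⟨-, h4⟩
        · rw [h5]
          exact h4
        · exact absurd (by rw [hyv, h5]) h4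
    have hvF' : v ∈ F' := by
      rcases Sym2.mem_iff.1 hv' with h5 | h5
      · rw [h5]
        exact h3'
      · rcases h4' with h4' | ⟨-, h4'⟩
        · rw [h5]
          exact h4'
        · exact absurd (by rw [hyv, h5]) h4'
    exact hdis v hvF hvF'

theorem pcs_arm {π : V → V} {z v : V} {n : ℕ} (hz : G.Adj z v)
    (hπ : ∀ l < n, G.Adj (π^[l] v) (π^[l + 1] v)) :
    Pcs D col b (armV π z v n) (arm D π z v n) := by
  rintro y (hy | ⟨l, hl, hy⟩)
  · exact ⟨z, v, hz, hy, Or.inl rfl, Or.inl (Or.inr ⟨0, Nat.zero_le n, rfl⟩)⟩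
  · exact ⟨π^[l] v, π^[l + 1] v, hπ l hl, hy, Or.inr ⟨l, hl.le, rfl⟩,
      Or.inl (Or.inr ⟨l + 1, hl, rfl⟩)⟩

theorem pcs_ray {x w : V} {r : Set (ℝ × ℝ)} (h : G.Adj x w) (hr : r ⊆ D.arc s(x, w))
    (hw : D.pt w ∉ r) (hb : col x = b) : Pcs D col b {x} r := by
  intro y hy
  refine ⟨x, w, h, hr hy, rfl, Or.inr ⟨hb, fun h1 => hw ?_⟩⟩
  rw [h1]
  exact hy

theorem joinedIn_arm {π : V → V} {z v : V} {n : ℕ} (hz : G.Adj z v)
    (hπ : ∀ l < n, G.Adj (π^[l] v) (π^[l + 1] v)) :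
    JoinedIn (arm D π z v n) (D.pt z) (D.pt (π^[n] v)) := by
  induction n with
  | zero => exact (D.joinedIn_arc hz).mono fun y hy => Or.inl hy
  | succ n ih =>
    have h1 := ih fun l hl => hπ l (Nat.lt_succ_of_lt hl)
    have h2 : arm D π z v n ⊆ arm D π z v (n + 1) := by
      rintro y (hy | ⟨l, hl, hy⟩)
      · exact Or.inl hy
      · exact Or.inr ⟨l, Nat.lt_succ_of_lt hl, hy⟩
    refine (h1.mono h2).trans ((D.joinedIn_arc (hπ n (Nat.lt_succ_self n))).mono ?_)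
    intro y hy
    exact Or.inr ⟨n, Nat.lt_succ_self n, hy⟩

end Pool.Agent.MP_245544_coT
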