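import Pool.Agent.Lib.MP_245544_coU.Disc
import Pool.Agent.Lib.MP_245544_coU.DRay
import Pool.Agent.Lib.MP_245544_coU.Piece
import Pool.Agent.Lib.MP_245544_coU.Forest

namespace Pool.Agent.MP_245544_coT

variable {V : Type} {G : SimpleGraph V}

/-- The pairs whose vertex has the parent `y`. -/
private theorem desc_fiber [Finite V] [DecidableEq V] (D : Drawing G) {m : ℕ} (hD : D.NearPlane m)
    {col : V → Bool} (hcol : ∀ u v, G.Adj u v → col u ≠ col v)
    {C : ℕ → Finset V} {π : V → V} {i : ℕ} (hF : Forest G C π i) {b : Bool}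
    {W Z : Finset V} (hW : W ⊆ C i) (hWb : ∀ v ∈ W, col v = b) (hZC : ∀ z ∈ Z, ∀ j < i, z ∉ C j)
    {n : ℕ} (hn : n < i) (hnm : 2 * (n + 2) ≤ m) (y : V) {H : Finset (V × V)}
    (hH : ∀ x ∈ H, x ∈ prs G π W Z n ∧ π x.2 = y) :
    H.card ≤ 3 * (H.image Prod.fst).card + (H.image Prod.snd).card := by
  have hmZ : ∀ z q, (z, q) ∈ H → z ∈ Z := fun z q h => (mem_prs.1 (hH _ h).1).1
  have hex : ∀ z q, ∃ v, (z, q) ∈ H → v ∈ W ∧ G.Adj z v ∧ π^[n] v = q := by
    intro z q
    by_cases h : (z, q) ∈ H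
    · obtain ⟨v, hv1, hv2, hv3⟩ := (mem_prs.1 (hH _ h).1).2
      exact ⟨v, fun _ => ⟨hv1, hv2, hv3⟩⟩
    · exact ⟨z, fun h' => (h h').elim⟩
  choose v hv using hex
  have hiadj : ∀ w ∈ W, ∀ l < n, G.Adj (π^[l] w) (π^[l + 1] w) := fun w hw l hl =>
    hF.iter_adj (hW hw) (hl.trans hn)
  obtain ⟨ρ, hρ, hρe, hρv⟩ := D.exists_radius y
  have hqy : ∀ z q, (z, q) ∈ H → G.Adj q y := by
    intro z q h
    obtain ⟨h1, h2, h3⟩ := hv z q h
    have h4 := hF.iter_adj (hW h1) hn
    rw [Function.iterate_succ_apply', h3] at h4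
    have h5 : π q = y := (hH _ h).2
    rwa [h5] at h4
  have hyC : ∀ z q, (z, q) ∈ H → y ∈ C (i - (n + 1)) := by
    intro z q h
    obtain ⟨h1, h2, h3⟩ := hv z q h
    have h4 := hF.iter_mem (hW h1) (show n + 1 ≤ i from hn)
    rw [Function.iterate_succ_apply', h3] at h4
    have h5 : π q = y := (hH _ h).2
    rwa [h5] at h4
  have hyl : ∀ z q, (z, q) ∈ H → ∀ l ≤ n, y ≠ π^[l] (v z q) := by
    intro z q h l hl hcon
    obtain ⟨h1, h2, h3⟩ := hv z q h
    have h4 := hF.iter_mem (hW h1) (hl.trans hn.le)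
    rw [← hcon] at h4
    exact Finset.disjoint_left.1 (hF.disj (i - (n + 1)) (by omega) (i - l) (by omega) (by omega))
      (hyC z q h) h4
  have hyz : ∀ z q, (z, q) ∈ H → y ≠ z := by
    intro z q h hcon
    have h1 := hyC z q h
    rw [hcon] at h1
    exact hZC z (hmZ z q h) (i - (n + 1)) (by omega) h1
  -- the arms are outside the disc
  have harm : ∀ z q, (z, q) ∈ H → ∀ p ∈ arm D π z (v z q) n, ρ < nsq (p - D.pt y) := by
    intro z q h p hp
    obtain ⟨h1, h2, h3⟩ := hv z q h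
    rcases hp with hp | ⟨l, hl, hp⟩
    · refine hρe _ ((SimpleGraph.mem_edgeSet G).2 h2) ?_ p hp
      intro hy
      rcases Sym2.mem_iff.1 hy with h5 | h5
      · exact hyz z q h h5
      · exact hyl z q h 0 (Nat.zero_le n) h5
    · refine hρe _ ((SimpleGraph.mem_edgeSet G).2 (hiadj _ h1 l hl)) ?_ p hp
      intro hy
      rcases Sym2.mem_iff.1 hy with h5 | h5
      · exact hyl z q h l hl.le h5
      · exact hyl z q h (l + 1) hl h5
  have hjarm : ∀ z q, (z, q) ∈ H → JoinedIn (arm D π z (v z q) n) (D.pt z) (D.pt q) := by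
    intro z q h
    obtain ⟨h1, h2, h3⟩ := hv z q h
    have h4 := joinedIn_arm (D := D) h2 (hiadj _ h1)
    rwa [h3] at h4
  -- the rays
  have hexr : ∀ q : V, ∃ (r : Set (ℝ × ℝ)) (e : ℝ × ℝ), (∃ z, (z, q) ∈ H) →
      r ⊆ D.arc s(q, y) ∧ (∀ p ∈ r, ρ ≤ nsq (p - D.pt y)) ∧
      (∀ p ∈ r, nsq (p - D.pt y) = ρ → p = e) ∧ nsq (e - D.pt y) = ρ ∧
      JoinedIn r (D.pt q) e ∧ D.pt y ∉ r := by
    intro q
    by_cases hq : ∃ z, (z, q) ∈ H
    · obtain ⟨z, hz⟩ := hq
      obtain ⟨r, e, h4⟩ := D.exists_disc_ray (hqy z q hz) hρ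
        (hρv q (hqy z q hz).ne)
      exact ⟨r, e, fun _ => h4⟩
    · exact ⟨∅, 0, fun h => (hq h).elim⟩
  choose r e hr using hexr
  have hcolr : ∀ z q z' q', (z, q) ∈ H → (z', q') ∈ H → col q = col q' := by
    intro z q z' q' h h'
    obtain ⟨h1, -, h3⟩ := hv z q h
    obtain ⟨h1', -, h3'⟩ := hv z' q' h'
    have h4 := hF.iter_col hcol (hW h1) (hW h1') ((hWb _ h1).trans (hWb _ h1').symm) hn.le
    rwa [h3, h3'] at h4
  have hPr : ∀ z q, (z, q) ∈ H → ∀ b', col q = b' → Pcs D col b' {q} (r q) := by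
    intro z q h b' hb'
    obtain ⟨h2, -, -, -, -, h6⟩ := hr q ⟨z, h⟩
    exact pcs_ray (hqy z q h) h2 h6 hb'
  have hmemV : ∀ z q, (z, q) ∈ H → q ∈ armV π z (v z q) n := by
    intro z q h
    obtain ⟨-, -, h3⟩ := hv z q h
    exact Or.inr ⟨n, le_refl n, h3.symm⟩
  have hPK : ∀ z q, (z, q) ∈ H → ∀ b', col q = b' →
      Pcs D col b' (armV π z (v z q) n) (arm D π z (v z q) n ∪ r q) := by
    intro z q h b' hb'
    obtain ⟨h1, h2, h3⟩ := hv z q h
    refine Pcs.union (pcs_arm h2 (hiadj _ h1)) ((hPr z q h b' hb').mono ?_)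
    rw [Set.singleton_subset_iff]
    exact hmemV z q h
  have hry : ∀ z q, (z, q) ∈ H → ∀ w ∈ armV π z (v z q) n, Reach G w y (n + 2) := by
    intro z q h w hw
    obtain ⟨h1, h2, h3⟩ := hv z q h
    have h4 := hF.reach_top (hW h1) h2 hn.le hw
    rw [h3] at h4
    exact (h4.trans (Reach.of_adj (hqy z q h))).mono (by omega)
  refine arms_bound_disc (H := H) (x₀ := D.pt y) (ρ := ρ) hρ (e := e) (pt := D.pt)
    (K := fun z q => arm D π z (v z q) n ∪ r q) ?_ ?_ ?_ ?_ ?_ ?_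
  · rintro ⟨z, q⟩ h p (hp | hp)
    · exact (harm z q h p hp).le
    · exact (hr q ⟨z, h⟩).2.1 p hp
  · rintro ⟨z, q⟩ h p (hp | hp) hpe
    · exact absurd hpe (harm z q h p hp).ne'
    · exact (hr q ⟨z, h⟩).2.2.1 p hp hpe
  · rintro ⟨z, q⟩ h
    exact (hr q ⟨z, h⟩).2.2.2.1
  · rintro ⟨z, q⟩ h
    exact ((hr q ⟨z, h⟩).2.2.2.2.1.symm.mono Set.subset_union_right).trans
      ((hjarm z q h).symm.mono Set.subset_union_left)
  · intro p p' q a u hpp h1 h2 h3 h4 hau
    have hca : col u = col a := hcolr _ _ _ _ h4 h3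
    obtain ⟨ha1, ha2, ha3⟩ := hv p a h3
    obtain ⟨hu1, hu2, hu3⟩ := hv p' u h4
    have hav : ∀ s s' x, (s, x) ∈ H → ∀ t, (s', t) ∈ H → ∀ l ≤ n, s ≠ π^[l] (v s' t) := by
      intro s s' x hs t ht l hl hcon
      obtain ⟨hs1, hs2, -⟩ := hv s x hs
      obtain ⟨ht1, ht2, -⟩ := hv s' t ht
      rcases Nat.eq_zero_or_pos l with h0 | h0
      · rw [h0, Function.iterate_zero_apply] at hcon
        exact hcol _ _ hs2 ((congrArg col hcon).trans ((hWb _ ht1).trans (hWb _ hs1).symm))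
      · have h5 := hF.iter_mem (hW ht1) (hl.trans hn.le)
        rw [← hcon] at h5
        exact hZC s (hmZ s x hs) (i - l) (by omega) h5
    refine pcs_disjoint hD hcol (hPK p a h3 (col a) rfl) (hPK p' u h4 (col a) hca) ?_ ?_
    · refine hF.armV_disjoint (hW ha1) (hW hu1) hn.le ?_ hpp ?_ ?_
      · rw [ha3, hu3]
        exact hau
      · exact hav p p' a h3 u h4
      · exact hav p' p u h4 a h3
    · intro w hw w' hw'
      exact ((hry p a h3 w hw).trans (hry p' u h4 w' hw').symm).mono (by omega)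
  · intro p a u h1 h2 hau heq
    have hd : Disjoint (r a) (r u) := by
      refine pcs_disjoint hD hcol (hPr p a h1 (col a) rfl)
        (hPr p u h2 (col a) (hcolr _ _ _ _ h2 h1)) ?_ ?_
      · rw [Set.disjoint_singleton]
        exact hau
      · intro x hx w hw
        rw [Set.mem_singleton_iff] at hx hw
        rw [hx, hw]
        exact ((Reach.of_adj (hqy p a h1)).trans (Reach.of_adj (hqy p u h2)).symm).mono (by omega)
    have h3 : e a ∈ r a := (hr a ⟨p, h1⟩).2.2.2.2.1.target_mem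
    have h4 : e u ∈ r u := (hr u ⟨p, h2⟩).2.2.2.2.1.target_mem
    rw [← heq] at h4
    exact Set.disjoint_left.1 hd h3 h4

/-- One step down the forest: Lemma C around every vertex `π^(n+1) v`. -/
theorem desc_bound [Finite V] (D : Drawing G) {m : ℕ} (hD : D.NearPlane m) {col : V → Bool}
    (hcol : ∀ u v, G.Adj u v → col u ≠ col v)
    {C : ℕ → Finset V} {π : V → V} {i : ℕ} (hF : Forest G C π i) {b : Bool}
    {W Z : Finset V} (hW : W ⊆ C i) (hWb : ∀ v ∈ W, col v = b) (hZC : ∀ z ∈ Z, ∀ j < i, z ∉ C j)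
    {n : ℕ} (hn : n < i) (hnm : 2 * (n + 2) ≤ m) :
    (prs G π W Z n).card ≤ 3 * (prs G π W Z (n + 1)).card + W.card := by
  classical
  obtain ⟨H, hH⟩ : ∃ H, H = prs G π W Z n := ⟨_, rfl⟩
  obtain ⟨Y, hY⟩ : ∃ Y, Y = (H.image Prod.snd).image π := ⟨_, rfl⟩
  have hYm : ∀ x ∈ H, π x.2 ∈ Y := by
    intro x hx
    rw [hY]
    exact Finset.mem_image_of_mem _ (Finset.mem_image_of_mem _ hx)
  have h1 : H.card = ∑ y ∈ Y, (H.filter (fun x => π x.2 = y)).card :=
    Finset.card_eq_sum_card_fiberwise (f := fun x : V × V => π x.2) (t := Y) (fun x hx => hYm x hx)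
  have h2 : ∀ y ∈ Y, (H.filter (fun x => π x.2 = y)).card ≤
      3 * ((H.filter (fun x => π x.2 = y)).image Prod.fst).card +
        ((H.filter (fun x => π x.2 = y)).image Prod.snd).card := by
    intro y _
    refine desc_fiber D hD hcol hF hW hWb hZC hn hnm y ?_
    intro x hx
    obtain ⟨h3, h4⟩ := Finset.mem_filter.1 hx
    rw [hH] at h3
    exact ⟨h3, h4⟩
  -- the first sum
  have h3 : ∑ y ∈ Y, ((H.filter (fun x => π x.2 = y)).image Prod.fst).card ≤
      (prs G π W Z (n + 1)).card := by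
    have h4 : ∀ y ∈ Y, ((H.filter (fun x => π x.2 = y)).image Prod.fst).card ≤
        ((prs G π W Z (n + 1)).filter (fun x => x.2 = y)).card := by
      intro y _
      have h5 : (H.filter (fun x => π x.2 = y)).image Prod.fst ⊆
          ((prs G π W Z (n + 1)).filter (fun x => x.2 = y)).image Prod.fst := by
        intro z hz
        obtain ⟨x, hx, rfl⟩ := Finset.mem_image.1 hz
        obtain ⟨h6, h7⟩ := Finset.mem_filter.1 hx
        rw [hH] at h6
        obtain ⟨h8, v, h9, h10, h11⟩ := mem_prs.1 h6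
        refine Finset.mem_image.2 ⟨(x.1, y), Finset.mem_filter.2 ⟨mem_prs.2 ⟨h8, v, h9, h10, ?_⟩,
          rfl⟩, rfl⟩
        rw [Function.iterate_succ_apply', h11, h7]
      exact (Finset.card_le_card h5).trans Finset.card_image_le
    refine (Finset.sum_le_sum h4).trans ?_
    rw [← Finset.card_biUnion]
    · refine Finset.card_le_card ?_
      intro x hx
      obtain ⟨y, -, hx'⟩ := Finset.mem_biUnion.1 hx
      exact (Finset.mem_filter.1 hx').1
    · intro y _ y' _ hne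
      refine Finset.disjoint_left.2 ?_
      intro x hx hx'
      exact hne ((Finset.mem_filter.1 hx).2.symm.trans (Finset.mem_filter.1 hx').2)
  -- the second sum
  have h4 : ∑ y ∈ Y, ((H.filter (fun x => π x.2 = y)).image Prod.snd).card ≤ W.card := by
    rw [← Finset.card_biUnion]
    · have h5 : (Y.biUnion fun y => (H.filter (fun x => π x.2 = y)).image Prod.snd) ⊆
          W.image (π^[n]) := by
        intro q hq
        obtain ⟨y, -, hq'⟩ := Finset.mem_biUnion.1 hq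
        obtain ⟨x, hx, rfl⟩ := Finset.mem_image.1 hq'
        have h6 := (Finset.mem_filter.1 hx).1
        rw [hH] at h6
        obtain ⟨-, v, h9, -, h11⟩ := mem_prs.1 h6
        exact Finset.mem_image.2 ⟨v, h9, h11⟩
      exact (Finset.card_le_card h5).trans Finset.card_image_le
    · intro y _ y' _ hne
      refine Finset.disjoint_left.2 ?_
      intro q hq hq'
      obtain ⟨x, hx, hxq⟩ := Finset.mem_image.1 hq
      obtain ⟨x', hx', hxq'⟩ := Finset.mem_image.1 hq'
      have h6 := (Finset.mem_filter.1 hx).2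
      have h7 := (Finset.mem_filter.1 hx').2
      rw [hxq] at h6
      rw [hxq'] at h7
      exact hne (h6.symm.trans h7)
  have h5 : H.card ≤ ∑ y ∈ Y, (3 * ((H.filter (fun x => π x.2 = y)).image Prod.fst).card +
      ((H.filter (fun x => π x.2 = y)).image Prod.snd).card) := by
    rw [h1]
    exact Finset.sum_le_sum h2
  rw [Finset.sum_add_distrib, ← Finset.mul_sum] at h5
  rw [← hH]
  omega

end Pool.Agent.MP_245544_coT
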