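import Pool.Agent.Lib.MP_245544_coU.Arms

namespace Pool.Agent.MP_245544_coT

/-- The vector `z - x₀` as a complex number. -/
private noncomputable def cxU (x₀ z : ℝ × ℝ) : ℂ := ⟨z.1 - x₀.1, z.2 - x₀.2⟩

private theorem cxU_inj {x₀ z w : ℝ × ℝ} (h : cxU x₀ z = cxU x₀ w) : z = w := by
  have h1 := congrArg Complex.re h
  have h2 := congrArg Complex.im h
  simp only [cxU] at h1 h2
  exact Prod.ext (by linarith) (by linarith)

private theorem cxU_nsq (x₀ z : ℝ × ℝ) : Complex.normSq (cxU x₀ z) = nsq (z - x₀) := by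
  rw [Complex.normSq_apply]
  simp only [cxU, nsq, Prod.fst_sub, Prod.snd_sub]
  ring

private theorem continuous_cxU (x₀ : ℝ × ℝ) : Continuous (cxU x₀) := by
  have h : cxU x₀ = fun z => (((z.1 - x₀.1 : ℝ) : ℂ)) + (((z.2 - x₀.2 : ℝ) : ℂ)) * Complex.I := by
    funext z
    apply Complex.ext <;> simp [cxU]
  rw [h]
  fun_prop

/-- The Cayley transform with pole `w₀`. -/
private noncomputable def cayU (w₀ w : ℂ) : ℂ := (w + w₀) / (w - w₀)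

private theorem cayU_inj {w₀ w w' : ℂ} (h0 : w₀ ≠ 0) (hw : w ≠ w₀) (hw' : w' ≠ w₀)
    (h : cayU w₀ w = cayU w₀ w') : w = w' := by
  unfold cayU at h
  rw [div_eq_div_iff (sub_ne_zero.2 hw) (sub_ne_zero.2 hw')] at h
  have h1 : 2 * w₀ * (w' - w) = 0 := by linear_combination h
  rcases mul_eq_zero.1 h1 with h2 | h2
  · rcases mul_eq_zero.1 h2 with h3 | h3
    · exact absurd h3 two_ne_zero
    · exact absurd h3 h0
  · exact (sub_eq_zero.1 h2).symm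

private theorem cayU_re (w₀ w : ℂ) : (cayU w₀ w).re =
    (Complex.normSq w - Complex.normSq w₀) / Complex.normSq (w - w₀) := by
  unfold cayU
  rw [Complex.div_re, ← add_div]
  congr 1
  rw [Complex.normSq_apply, Complex.normSq_apply]
  simp only [Complex.add_re, Complex.sub_re, Complex.add_im, Complex.sub_im]
  ring

/-- A point of the circle outside a finite set. -/
private theorem circleU {x₀ : ℝ × ℝ} {ρ : ℝ} (hρ : 0 < ρ) {Z : Set (ℝ × ℝ)} (hZ : Z.Finite) :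
    ∃ z₀, nsq (z₀ - x₀) = ρ ∧ z₀ ∉ Z := by
  have hinf : (Set.Icc x₀.1 (x₀.1 + Real.sqrt ρ)).Infinite := by
    apply Set.Icc_infinite
    have := Real.sqrt_pos.2 hρ
    linarith
  obtain ⟨x, hx, hxZ⟩ := hinf.exists_notMem_finite (hZ.image Prod.fst)
  have hx2 : (x - x₀.1) ^ 2 ≤ ρ := by
    have h1 : 0 ≤ x - x₀.1 := by linarith [hx.1]
    have h2 : x - x₀.1 ≤ Real.sqrt ρ := by linarith [hx.2]
    calc (x - x₀.1) ^ 2 ≤ Real.sqrt ρ ^ 2 := pow_le_pow_left₀ h1 h2 2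
      _ = ρ := Real.sq_sqrt hρ.le
  refine ⟨(x, x₀.2 + Real.sqrt (ρ - (x - x₀.1) ^ 2)), ?_, fun h => hxZ ⟨_, h, rfl⟩⟩
  have h3 : Real.sqrt (ρ - (x - x₀.1) ^ 2) ^ 2 = ρ - (x - x₀.1) ^ 2 :=
    Real.sq_sqrt (by linarith)
  simp only [nsq, Prod.fst_sub, Prod.snd_sub]
  rw [add_sub_cancel_left, h3]
  ring

/-- A map of the complement of an open disc, without one point of the circle, into a half plane. -/
private theorem mapU {x₀ z₀ : ℝ × ℝ} {ρ : ℝ} (hρ : 0 < ρ) (hz₀ : nsq (z₀ - x₀) = ρ) :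
    ∃ Φ : ℝ × ℝ → ℝ × ℝ, (∀ z z', z ≠ z₀ → z' ≠ z₀ → Φ z = Φ z' → z = z') ∧
      (∀ z, ρ ≤ nsq (z - x₀) → 0 ≤ fn 0 (Φ z)) ∧ (∀ z, nsq (z - x₀) = ρ → fn 0 (Φ z) = 0) ∧
      ∀ K : Set (ℝ × ℝ), (∀ z ∈ K, z ≠ z₀) → ContinuousOn Φ K := by
  set w₀ := cxU x₀ z₀ with hw₀
  have hn0 : Complex.normSq w₀ = ρ := by rw [hw₀, cxU_nsq, hz₀]
  have hw0 : w₀ ≠ 0 := by
    intro h
    rw [h, map_zero] at hn0
    exact hρ.ne hn0
  set Ψ : ℝ × ℝ → ℂ := fun z => cayU w₀ (cxU x₀ z) with hΨ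
  have hne : ∀ z, z ≠ z₀ → cxU x₀ z ≠ w₀ := fun z h h' => h (cxU_inj h')
  have hΨinj : ∀ z z', z ≠ z₀ → z' ≠ z₀ → Ψ z = Ψ z' → z = z' := fun z z' h h' e =>
    cxU_inj (cayU_inj hw0 (hne z h) (hne z' h') e)
  have hre : ∀ z, (Ψ z).re = (nsq (z - x₀) - ρ) / Complex.normSq (cxU x₀ z - w₀) := by
    intro z
    rw [hΨ]
    change (cayU w₀ (cxU x₀ z)).re = _
    rw [cayU_re, cxU_nsq, hn0]
  have hfn : ∀ z, fn 0 ((Ψ z).re, (Ψ z).im) = (Ψ z).re := fun z => by simp [fn]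
  refine ⟨fun z => ((Ψ z).re, (Ψ z).im), fun z z' h h' e =>
    hΨinj z z' h h' (Complex.ext (congrArg Prod.fst e) (congrArg Prod.snd e)), fun z hz => ?_,
    fun z hz => ?_, fun K hK => ?_⟩
  · rw [hfn, hre]
    exact div_nonneg (by linarith) (Complex.normSq_nonneg _)
  · rw [hfn, hre, hz, sub_self, zero_div]
  · have h1 : ContinuousOn Ψ K := by
      apply ContinuousOn.div
      · exact ((continuous_cxU x₀).add continuous_const).continuousOn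
      · exact ((continuous_cxU x₀).sub continuous_const).continuousOn
      · intro z hz
        exact sub_ne_zero.2 (hne z (hK z hz))
    exact (Complex.continuous_re.comp_continuousOn h1).prodMk
      (Complex.continuous_im.comp_continuousOn h1)

/-- Lemma C with arms outside the round disc with centre `x₀` and squared radius `ρ`. -/
theorem arms_bound_disc {P Y : Type} [DecidableEq P] [DecidableEq Y] {H : Finset (P × Y)}
    {x₀ : ℝ × ℝ} {ρ : ℝ} (hρ : 0 < ρ)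
    {e : Y → ℝ × ℝ} {pt : P → ℝ × ℝ} {K : P → Y → Set (ℝ × ℝ)}
    (hK : ∀ x ∈ H, ∀ z ∈ K x.1 x.2, ρ ≤ nsq (z - x₀))
    (hK' : ∀ x ∈ H, ∀ z ∈ K x.1 x.2, nsq (z - x₀) = ρ → z = e x.2)
    (he : ∀ x ∈ H, nsq (e x.2 - x₀) = ρ)
    (hj : ∀ x ∈ H, JoinedIn (K x.1 x.2) (e x.2) (pt x.1))
    (hd : ∀ p p' q a u, p ≠ p' → (p, q) ∈ H → (p', q) ∈ H → (p, a) ∈ H → (p', u) ∈ H → a ≠ u →
      Disjoint (K p a) (K p' u))
    (hne : ∀ p a u, (p, a) ∈ H → (p, u) ∈ H → a ≠ u → e a ≠ e u) :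
    H.card ≤ 3 * (H.image Prod.fst).card + (H.image Prod.snd).card := by
  have hZf : {z : ℝ × ℝ | ∃ x ∈ H, z = e x.2}.Finite := by
    refine ((H.image Prod.snd).finite_toSet.image e).subset ?_
    rintro z ⟨x, hx, rfl⟩
    exact ⟨x.2, Finset.mem_coe.2 (Finset.mem_image_of_mem _ hx), rfl⟩
  obtain ⟨z₀, hz₀, hz₀Z⟩ := circleU (x₀ := x₀) hρ hZf
  obtain ⟨Φ, hΦi, hΦ1, hΦ2, hΦc⟩ := mapU hρ hz₀
  have hK0 : ∀ x ∈ H, ∀ z ∈ K x.1 x.2, z ≠ z₀ := by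
    intro x hx z hz h
    exact hz₀Z ⟨x, hx, by rw [← h]; exact hK' x hx z hz (by rw [h, hz₀])⟩
  have he0 : ∀ x ∈ H, e x.2 ≠ z₀ := fun x hx h => hz₀Z ⟨x, hx, h.symm⟩
  refine arms_bound (δ := 0) (c := 0) (e := fun q => Φ (e q)) (pt := fun p => Φ (pt p))
    (K := fun p q => Φ '' K p q) ?_ (fun x hx => hΦ2 _ (he x hx))
    (fun x hx => (hj x hx).map_continuousOn (hΦc _ (hK0 x hx))) ?_ ?_
  · rintro x hx _ ⟨z, hz, rfl⟩
    exact hΦ1 z (hK x hx z hz)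
  · intro p p' q a u hp h1 h2 h3 h4 hau
    rw [Set.disjoint_left]
    rintro _ ⟨z, hz, rfl⟩ ⟨w, hw, h⟩
    have h5 := hΦi w z (hK0 (p', u) h4 w hw) (hK0 (p, a) h3 z hz) h
    rw [h5] at hw
    exact Set.disjoint_left.1 (hd p p' q a u hp h1 h2 h3 h4 hau) hz hw
  · intro p a u h1 h2 hau h
    exact hne p a u h1 h2 hau (hΦi _ _ (he0 (p, a) h1) (he0 (p, u) h2) h)

end Pool.Agent.MP_245544_coT
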