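import Pool.Agent.Lib.MP_245544_coU.RecU
import Pool.Agent.Lib.MP_245544_coU.CutU

namespace Pool.Agent.MP_245544_coT

variable {V : Type}

/-- The bound for arbitrary graphs with a drawing whose crossing edges are at distance at least
`8 t - 1`. -/
theorem edges_bound_t {t : ℕ} (ht : 1 ≤ t) : ∃ C : ℝ, 0 ≤ C ∧ ∀ (V : Type) [Fintype V]
    (G : SimpleGraph V) (D : Drawing G) (k : ℕ), 8 * t - 1 ≤ k → D.CrossingsFar k →
    2 ≤ Fintype.card V →
    (G.edgeSet.ncard : ℝ) ≤ C * Fintype.card V * Real.log (Fintype.card V) ^ (1 / (t : ℝ)) := by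
  obtain ⟨c₀, hc₀⟩ : ∃ c₀ : ℕ, c₀ = 12 * t * (4 * 3 ^ (2 * t)) := ⟨_, rfl⟩
  obtain ⟨c₁, hc₁⟩ : ∃ c₁ : ℕ, c₁ = (4 * 3 ^ (2 * t)) ^ t := ⟨_, rfl⟩
  obtain ⟨B, hB⟩ : ∃ B : ℝ, B = ((c₀ : ℝ) + 1) ^ t + 4 * t * c₁ := ⟨_, rfl⟩
  have hB0 : 0 ≤ B := by
    rw [hB]
    positivity
  refine ⟨2 * (3 * B) ^ (1 / (t : ℝ)), by positivity, ?_⟩
  intro V _ G D k hk hD hn
  classical
  obtain ⟨G', col, hle, hcol, hcard⟩ := exists_bip G
  have hnp : (D.restrict hle).NearPlane (8 * t - 4) :=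
    (hD.nearPlane (m := 8 * t - 4) (by omega)).restrict hle
  have hrec := rec_bound G' ht (c₀ := c₀) (c₁ := c₁) (fun S a hS ha hdeg => by
    rw [hc₀] at ha
    rw [hc₁]
    exact cut_exists (D.restrict hle) ht hnp hcol hS ha hdeg) Finset.univ
  rw [← hB, Finset.card_univ] at hrec
  have hE : G.edgeSet.ncard = (edgesIn G Finset.univ).card := by
    rw [← Set.ncard_coe_finset]
    congr 1
    ext e
    rw [Finset.mem_coe, mem_edgesIn]
    simp
  have hn' : (2 : ℝ) ≤ (Fintype.card V : ℝ) := by exact_mod_cast hn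
  have hlog : 1 / 2 ≤ Real.log (Fintype.card V : ℝ) := by
    have h1 : Real.log 2 ≤ Real.log (Fintype.card V : ℝ) := Real.log_le_log (by norm_num) hn'
    have h2 := Real.log_two_gt_d9
    linarith
  have hlog0 : 0 ≤ Real.log (Fintype.card V : ℝ) := by linarith
  have h3 : B * (1 + Real.log (Fintype.card V : ℝ)) ≤ 3 * B * Real.log (Fintype.card V : ℝ) := by
    have h4 : 1 + Real.log (Fintype.card V : ℝ) ≤ 3 * Real.log (Fintype.card V : ℝ) := by linarith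
    calc B * (1 + Real.log (Fintype.card V : ℝ)) ≤ B * (3 * Real.log (Fintype.card V : ℝ)) :=
          mul_le_mul_of_nonneg_left h4 hB0
      _ = 3 * B * Real.log (Fintype.card V : ℝ) := by ring
  have h5 : (B * (1 + Real.log (Fintype.card V : ℝ))) ^ (1 / (t : ℝ)) ≤
      (3 * B) ^ (1 / (t : ℝ)) * Real.log (Fintype.card V : ℝ) ^ (1 / (t : ℝ)) := by
    rw [← Real.mul_rpow (by positivity) hlog0]
    exact Real.rpow_le_rpow (mul_nonneg hB0 (by linarith)) h3 (by positivity)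
  have h6 : (G.edgeSet.ncard : ℝ) ≤ 2 * ((edgesIn G' Finset.univ).card : ℝ) := by
    rw [hE]
    exact_mod_cast hcard
  calc (G.edgeSet.ncard : ℝ) ≤ 2 * ((edgesIn G' Finset.univ).card : ℝ) := h6
    _ ≤ 2 * ((Fintype.card V : ℝ) *
        (B * (1 + Real.log (Fintype.card V : ℝ))) ^ (1 / (t : ℝ))) :=
        mul_le_mul_of_nonneg_left hrec (by norm_num)
    _ ≤ 2 * ((Fintype.card V : ℝ) * ((3 * B) ^ (1 / (t : ℝ)) *
        Real.log (Fintype.card V : ℝ) ^ (1 / (t : ℝ)))) :=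
        mul_le_mul_of_nonneg_left (mul_le_mul_of_nonneg_left h5 (by positivity)) (by norm_num)
    _ = 2 * (3 * B) ^ (1 / (t : ℝ)) * Fintype.card V *
        Real.log (Fintype.card V) ^ (1 / (t : ℝ)) := by ring

end Pool.Agent.MP_245544_coT
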