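import Pool.Agent.Lib.MP_245544_coU.Base

namespace Pool.Agent.MP_245544_coT

variable {V : Type} {G : SimpleGraph V} {S L : Finset V}

private theorem mem_nbh_succ {i : ℕ} {v : V} :
    v ∈ nbh G S L (i + 1) ↔ v ∈ S ∧ (v ∈ nbh G S L i ∨ ∃ w ∈ nbh G S L i, G.Adj v w) := by
  classical
  rw [nbh, Finset.mem_filter]

private theorem mem_layer_succ {i : ℕ} {v : V} :
    v ∈ layer G S L (i + 1) ↔ v ∈ nbh G S L (i + 1) ∧ v ∉ nbh G S L i := by
  classical
  rw [layer, Finset.mem_sdiff]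

theorem nbh_subset (hL : L ⊆ S) (i : ℕ) : nbh G S L i ⊆ S := by
  cases i with
  | zero => exact hL
  | succ i => exact fun v hv => (mem_nbh_succ.1 hv).1

theorem nbh_mono (hL : L ⊆ S) {i j : ℕ} (hij : i ≤ j) : nbh G S L i ⊆ nbh G S L j := by
  induction hij with
  | refl => exact Finset.Subset.refl _
  | step _ ih => exact fun v hv => mem_nbh_succ.2 ⟨nbh_subset hL i hv, Or.inl (ih hv)⟩

theorem layer_subset_nbh (i : ℕ) : layer G S L i ⊆ nbh G S L i := by
  cases i with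
  | zero => exact Finset.Subset.refl _
  | succ i => exact fun v hv => (mem_layer_succ.1 hv).1

theorem layer_subset (hL : L ⊆ S) (i : ℕ) : layer G S L i ⊆ S :=
  (layer_subset_nbh i).trans (nbh_subset hL i)

private theorem layer_disj_lt (hL : L ⊆ S) {i j : ℕ} (hij : i < j) :
    Disjoint (layer G S L i) (layer G S L j) := by
  rw [Finset.disjoint_left]
  intro v hi hj
  obtain ⟨k, rfl⟩ : ∃ k, j = k + 1 := ⟨j - 1, by omega⟩
  exact (mem_layer_succ.1 hj).2 (nbh_mono hL (Nat.lt_succ_iff.1 hij) (layer_subset_nbh i hi))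

theorem layer_disjoint (hL : L ⊆ S) {i j : ℕ} (hij : i ≠ j) :
    Disjoint (layer G S L i) (layer G S L j) := by
  rcases lt_or_gt_of_ne hij with h | h
  · exact layer_disj_lt hL h
  · exact (layer_disj_lt hL h).symm

/-- A vertex of `nbh i` with a neighbour in `S` outside `nbh i` is in the layer `i`. -/
private theorem mem_layer_of_nbr {i : ℕ} {v w : V} (hv : v ∈ S) (hvi : v ∉ nbh G S L i)
    (hw : w ∈ nbh G S L i) (h : G.Adj v w) : w ∈ layer G S L i := by
  cases i with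
  | zero => exact hw
  | succ i =>
    exact mem_layer_succ.2 ⟨hw, fun hw' => hvi (mem_nbh_succ.2 ⟨hv, Or.inr ⟨w, hw', h⟩⟩)⟩

theorem exists_parent (hL : L ⊆ S) {i : ℕ} {v : V} (hv : v ∈ layer G S L (i + 1)) :
    ∃ w ∈ layer G S L i, G.Adj v w := by
  have _ := hL
  obtain ⟨h1, h2⟩ := mem_layer_succ.1 hv
  obtain ⟨h3, h4 | ⟨w, hw, h⟩⟩ := mem_nbh_succ.1 h1
  · exact absurd h4 h2
  · exact ⟨w, mem_layer_of_nbr h3 h2 hw h, h⟩

theorem exists_forest (hL : L ⊆ S) : ∃ π : V → V, ∀ i, Forest G (layer G S L) π i := by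
  have key : ∀ v, ∃ w, ∀ j, v ∈ layer G S L (j + 1) → w ∈ layer G S L j ∧ G.Adj v w := by
    intro v
    by_cases h : ∃ j, v ∈ layer G S L (j + 1)
    · obtain ⟨j, hj⟩ := h
      obtain ⟨w, hw, ha⟩ := exists_parent hL hj
      refine ⟨w, fun j' hj' => ?_⟩
      have : j' = j := by
        by_contra hne
        have hne' : j' + 1 ≠ j + 1 := fun h => hne (Nat.succ_injective h)
        exact Finset.disjoint_left.1 (layer_disjoint hL hne') hj' hj
      rw [this]
      exact ⟨hw, ha⟩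
    · exact ⟨v, fun j hj => absurd ⟨j, hj⟩ h⟩
  choose π hπ using key
  exact ⟨π, fun i => ⟨fun j _ l _ hjl => layer_disjoint hL hjl,
    fun j _ v hv => (hπ v j hv).1, fun j _ v hv => (hπ v j hv).2⟩⟩

theorem layer_nbr (hL : L ⊆ S) {i : ℕ} {v u : V} (hv : v ∈ layer G S L (i + 1)) (hu : u ∈ S)
    (h : G.Adj v u) : u ∈ layer G S L i ∨ u ∈ layer G S L (i + 1) ∨ u ∈ layer G S L (i + 2) := by
  obtain ⟨h1, h2⟩ := mem_layer_succ.1 hv
  have h3 : u ∈ nbh G S L (i + 2) := mem_nbh_succ.2 ⟨hu, Or.inr ⟨v, h1, h.symm⟩⟩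
  by_cases h4 : u ∈ nbh G S L (i + 1)
  · by_cases h5 : u ∈ nbh G S L i
    · exact Or.inl (mem_layer_of_nbr (nbh_subset hL _ h1) h2 h5 h)
    · exact Or.inr (Or.inl (mem_layer_succ.2 ⟨h4, h5⟩))
  · exact Or.inr (Or.inr (mem_layer_succ.2 ⟨h3, h4⟩))

theorem cut_edge (hL : L ⊆ S) {i : ℕ} {v u : V} (hv : v ∈ nbh G S L i) (hu : u ∈ S)
    (hu' : u ∉ nbh G S L i) (h : G.Adj v u) : v ∈ layer G S L i ∧ u ∈ layer G S L (i + 1) := by
  have _ := hL
  exact ⟨mem_layer_of_nbr hu hu' hv h.symm,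
    mem_layer_succ.2 ⟨mem_nbh_succ.2 ⟨hu, Or.inr ⟨v, hv, h.symm⟩⟩, hu'⟩⟩

theorem card_nbh_le (hL : L ⊆ S) (i : ℕ) :
    (nbh G S L i).card ≤ ∑ j ∈ Finset.range (i + 1), (layer G S L j).card := by
  classical
  induction i with
  | zero => simp [nbh, layer]
  | succ i ih =>
    rw [Finset.sum_range_succ]
    have hsub : nbh G S L (i + 1) ⊆ nbh G S L i ∪ layer G S L (i + 1) := by
      intro v hv
      by_cases h : v ∈ nbh G S L i
      · exact Finset.mem_union_left _ h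
      · exact Finset.mem_union_right _ (mem_layer_succ.2 ⟨hv, h⟩)
    calc (nbh G S L (i + 1)).card ≤ (nbh G S L i ∪ layer G S L (i + 1)).card :=
          Finset.card_le_card hsub
      _ ≤ (nbh G S L i).card + (layer G S L (i + 1)).card := Finset.card_union_le _ _
      _ ≤ _ := Nat.add_le_add_right ih _

end Pool.Agent.MP_245544_coT
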