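import Pool.Agent.Lib.MP_245544_coU.Root
import Pool.Agent.Lib.MP_245544_coU.Desc
import Pool.Agent.Lib.MP_245544_coU.Lay

namespace Pool.Agent.MP_245544_coT

variable {V : Type} {G : SimpleGraph V}

private theorem prs_zero_card (π : V → V) (W Z : Finset V) : (prs G π W Z 0).card = ebt G W Z := by
  classical
  unfold prs ebt
  have h : (fun x : V × V => (x.1, π^[0] x.2)) = id := by
    funext x
    rfl
  rw [h, Finset.image_id]

private theorem down_ind {a : ℕ → ℕ} {w : ℕ} : ∀ k : ℕ, (∀ n < k, a n ≤ 3 * a (n + 1) + w) →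
    2 * a 0 + w ≤ 3 ^ k * (2 * a k + w) := by
  intro k
  induction k with
  | zero => intro _; simp
  | succ k ih =>
    intro h
    have h1 := ih (fun n hn => h n (Nat.lt_succ_of_lt hn))
    have h2 := h k (Nat.lt_succ_self k)
    have h3 : 2 * a k + w ≤ 3 * (2 * a (k + 1) + w) := by omega
    calc 2 * a 0 + w ≤ 3 ^ k * (2 * a k + w) := h1
      _ ≤ 3 ^ k * (3 * (2 * a (k + 1) + w)) := Nat.mul_le_mul_left _ h3
      _ = 3 ^ (k + 1) * (2 * a (k + 1) + w) := by rw [pow_succ, mul_assoc]

/-- The number of edges between a part `W` of the layer `i` (of one colour) and a set `Z` above the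
threshold which avoids the lower layers. -/
theorem layer_edges [Finite V] (D : Drawing G) {m : ℕ} (hD : D.NearPlane m) {col : V → Bool}
    (hcol : ∀ u v, G.Adj u v → col u ≠ col v) {S L : Finset V} {δ c : ℝ} (hT : Thr D S L δ c)
    {i : ℕ} (him : 4 * (i + 1) ≤ m) {b : Bool} {W Z : Finset V} (hW : W ⊆ layer G S L i)
    (hWb : ∀ v ∈ W, col v = b) (hZ : Z ⊆ S) (hZL : ∀ z ∈ Z, z ∉ L)
    (hZC : ∀ z ∈ Z, ∀ j < i, z ∉ layer G S L j) :
    ebt G W Z ≤ 3 ^ (i + 1) * (Z.card + W.card) := by
  obtain ⟨π, hπ⟩ := exists_forest (G := G) hT.sub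
  have hF := hπ i
  have hroot : (prs G π W Z i).card ≤ 3 * Z.card + W.card := by
    refine root_bound D hD hcol hT.hc hF him hW hWb hZC ?_ ?_ ?_
    · intro z hz v hv hadj y hy
      exact hT.up z (hZ hz) (hZL z hz) v (layer_subset hT.sub i (hW hv)) hadj y hy
    · intro j hj v hv y hy
      have hvS : v ∈ S := layer_subset hT.sub (j + 1) hv
      have hvL : v ∉ L := by
        intro h0
        have hdis := layer_disjoint (G := G) hT.sub (i := j + 1) (j := 0) (by omega)
        exact (Finset.disjoint_left.1 hdis hv) h0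
      exact hT.up v hvS hvL (π v) (layer_subset hT.sub j (hF.mem j hj v hv)) (hF.adj j hj v hv) y hy
    · intro x hx
      exact hT.ray x hx
  have hdesc : ∀ n < i, (fun n => (prs G π W Z n).card) n
      ≤ 3 * (fun n => (prs G π W Z n).card) (n + 1) + W.card := by
    intro n hn
    exact desc_bound D hD hcol hF hW hWb hZC hn (by omega)
  have h := down_ind i hdesc
  rw [prs_zero_card] at h
  have h2 : 3 ^ i * (2 * (prs G π W Z i).card + W.card) ≤ 3 ^ i * (3 * (2 * Z.card + W.card)) :=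
    Nat.mul_le_mul_left _ (by omega)
  have h3 : 3 ^ i * (3 * (2 * Z.card + W.card)) = 3 ^ (i + 1) * (2 * Z.card + W.card) := by
    rw [pow_succ, mul_assoc]
  have h4 : 3 ^ (i + 1) * (2 * Z.card + W.card) ≤ 3 ^ (i + 1) * (2 * (Z.card + W.card)) :=
    Nat.mul_le_mul_left _ (by omega)
  have h5 : 3 ^ (i + 1) * (2 * (Z.card + W.card)) = 2 * (3 ^ (i + 1) * (Z.card + W.card)) := by
    ring
  omega

end Pool.Agent.MP_245544_coT
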