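import Pool.Agent.Lib.MP_245544_coU.Base

namespace Pool.Agent.MP_245544_coT

variable {V : Type}

/-- Edges inside `S` are inside `A`, inside `S \ A` or between them. -/
theorem edges_split [Fintype V] [DecidableEq V] (G : SimpleGraph V) {S A : Finset V} (hA : A ⊆ S) :
    (edgesIn G S).card ≤ (edgesIn G A).card + (edgesIn G (S \ A)).card + ebt G A (S \ A) := by
  classical
  have hsub : edgesIn G S ⊆ edgesIn G A ∪ edgesIn G (S \ A) ∪
      (((S \ A) ×ˢ A).filter (fun x => G.Adj x.1 x.2)).image (fun x => s(x.1, x.2)) := by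
    intro e he
    rw [mem_edgesIn] at he
    obtain ⟨he, hS⟩ := he
    induction e using Sym2.ind with
    | _ u w =>
      rw [SimpleGraph.mem_edgeSet] at he
      have hu : u ∈ S := hS u (Sym2.mem_mk_left u w)
      have hw : w ∈ S := hS w (Sym2.mem_mk_right u w)
      rw [Finset.mem_union, Finset.mem_union, mem_edgesIn, mem_edgesIn, Finset.mem_image]
      by_cases h1 : u ∈ A
      · by_cases h2 : w ∈ A
        · refine Or.inl (Or.inl ⟨he, fun v hv => ?_⟩)
          rcases Sym2.mem_iff.1 hv with rfl | rfl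
          · exact h1
          · exact h2
        · refine Or.inr ⟨(w, u), ?_, Sym2.eq_swap⟩
          rw [Finset.mem_filter, Finset.mem_product, Finset.mem_sdiff]
          exact ⟨⟨⟨hw, h2⟩, h1⟩, he.symm⟩
      · by_cases h2 : w ∈ A
        · refine Or.inr ⟨(u, w), ?_, rfl⟩
          rw [Finset.mem_filter, Finset.mem_product, Finset.mem_sdiff]
          exact ⟨⟨⟨hu, h1⟩, h2⟩, he⟩
        · refine Or.inl (Or.inr ⟨he, fun v hv => ?_⟩)
          rw [Finset.mem_sdiff]
          rcases Sym2.mem_iff.1 hv with rfl | rfl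
          · exact ⟨hu, h1⟩
          · exact ⟨hw, h2⟩
  have h1 := Finset.card_le_card hsub
  have h2 := Finset.card_union_le (edgesIn G A ∪ edgesIn G (S \ A))
    ((((S \ A) ×ˢ A).filter (fun x => G.Adj x.1 x.2)).image (fun x => s(x.1, x.2)))
  have h3 := Finset.card_union_le (edgesIn G A) (edgesIn G (S \ A))
  have h4 : ((((S \ A) ×ˢ A).filter (fun x => G.Adj x.1 x.2)).image
      (fun x => s(x.1, x.2))).card ≤ ebt G A (S \ A) := by
    refine Finset.card_image_le.trans (le_of_eq ?_)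
    unfold ebt
    congr 1
  omega

/-- Removing a vertex. -/
theorem edges_erase [Fintype V] [DecidableEq V] (G : SimpleGraph V) {S : Finset V} {v : V}
    (hv : v ∈ S) : (edgesIn G S).card ≤ (edgesIn G (S.erase v)).card + (nbrs G S v).card := by
  classical
  have hsub : edgesIn G S ⊆ edgesIn G (S.erase v) ∪ (nbrs G S v).image (fun u => s(v, u)) := by
    intro e he
    rw [mem_edgesIn] at he
    obtain ⟨he, hS⟩ := he
    rw [Finset.mem_union, mem_edgesIn, Finset.mem_image]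
    by_cases h : v ∈ e
    · obtain ⟨w, rfl⟩ := Sym2.mem_iff_exists.1 h
      rw [SimpleGraph.mem_edgeSet] at he
      exact Or.inr ⟨w, mem_nbrs.2 ⟨hS w (Sym2.mem_mk_right v w), he⟩, rfl⟩
    · refine Or.inl ⟨he, fun u hu => ?_⟩
      rw [Finset.mem_erase]
      refine ⟨?_, hS u hu⟩
      rintro rfl
      exact h hu
  have h1 := Finset.card_le_card hsub
  have h2 := Finset.card_union_le (edgesIn G (S.erase v)) ((nbrs G S v).image (fun u => s(v, u)))
  have h3 : ((nbrs G S v).image (fun u => s(v, u))).card ≤ (nbrs G S v).card :=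
    Finset.card_image_le
  omega

private theorem recU_log : (1 : ℝ) / 4 ≤ Real.log (4 / 3) := by
  rw [Real.le_log_iff_exp_le (by norm_num)]
  have h1 : (3 : ℝ) / 4 ≤ Real.exp (-(1 / 4)) := by
    have h := Real.add_one_le_exp (-(1 / 4) : ℝ)
    linarith
  have h2 : Real.exp (1 / 4) * Real.exp (-(1 / 4)) = 1 := by
    rw [← Real.exp_add]
    norm_num
  have h3 : 0 < Real.exp (1 / 4) := Real.exp_pos _
  nlinarith

private theorem recU_pow {t : ℕ} (ht : 1 ≤ t) {x y b c : ℝ} (hx : 0 < x) (hy : 0 ≤ y)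
    (h : y ^ t + b ≤ x ^ t) (hb : t * c ≤ b) : c ≤ (x - y) * x ^ (t - 1) := by
  have h1 := one_add_mul_le_pow (a := y / x - 1) (by
    have : 0 ≤ y / x := div_nonneg hy hx.le
    linarith) t
  have h2 : (1 + (y / x - 1)) ^ t * x ^ t = y ^ t := by
    rw [← mul_pow]
    congr 1
    field_simp
    ring
  have h3 : (1 + (t : ℝ) * (y / x - 1)) * x ^ t = x ^ t + t * ((y - x) * x ^ (t - 1)) := by
    have h4 : x ^ t = x * x ^ (t - 1) := by
      rw [← pow_succ']
      congr 1
      omega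
    have h5 : (y / x - 1) * x ^ t = (y - x) * x ^ (t - 1) := by
      rw [h4]
      field_simp
    linear_combination (t : ℝ) * h5
  have h6 := mul_le_mul_of_nonneg_right h1 (pow_pos hx t).le
  rw [h2, h3] at h6
  have ht' : (0 : ℝ) < t := by exact_mod_cast ht
  have h7 : (t : ℝ) * c ≤ t * ((x - y) * x ^ (t - 1)) := by nlinarith
  exact le_of_mul_le_mul_left h7 ht'

private noncomputable def recU_phi (B : ℝ) (t N : ℕ) : ℝ :=
  (B * (1 + Real.log N)) ^ (1 / (t : ℝ))

private theorem recU_phi_nonneg {B : ℝ} (hB : 0 ≤ B) (t N : ℕ) : 0 ≤ recU_phi B t N := by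
  refine Real.rpow_nonneg (mul_nonneg hB ?_) _
  have := Real.log_natCast_nonneg N
  linarith

private theorem recU_phi_pow {B : ℝ} (hB : 0 ≤ B) {t : ℕ} (ht : 1 ≤ t) (N : ℕ) :
    recU_phi B t N ^ t = B * (1 + Real.log N) := by
  have h : 0 ≤ B * (1 + Real.log N) := by
    refine mul_nonneg hB ?_
    have := Real.log_natCast_nonneg N
    linarith
  unfold recU_phi
  rw [one_div]
  exact Real.rpow_inv_natCast_pow h (by omega)

private theorem recU_empty [Fintype V] (G : SimpleGraph V) : (edgesIn G ∅).card = 0 := by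
  rw [Finset.card_eq_zero, Finset.eq_empty_iff_forall_notMem]
  intro e he
  rw [mem_edgesIn] at he
  induction e using Sym2.ind with
  | _ u w => exact absurd (he.2 u (Sym2.mem_mk_left u w)) (Finset.notMem_empty u)

private theorem recU_main [Fintype V] [DecidableEq V] (G : SimpleGraph V) {t : ℕ} (ht : 1 ≤ t)
    {c₀ c₁ : ℕ}
    (hcut : ∀ (S : Finset V) (a : ℕ), S.Nonempty → c₀ ≤ a → (∀ v ∈ S, a ≤ (nbrs G S v).card) →
      ∃ A ⊆ S, 4 * A.card ≤ 3 * S.card ∧ 4 * (S \ A).card ≤ 3 * S.card ∧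
        a ^ (t - 1) * ebt G A (S \ A) ≤ c₁ * S.card) (B : ℝ)
    (hB : B = ((c₀ : ℝ) + 1) ^ t + 4 * t * c₁) (N : ℕ) : ∀ S : Finset V, S.card ≤ N →
    ((edgesIn G S).card : ℝ) ≤ S.card * recU_phi B t N := by
  have hB0 : 0 ≤ B := by rw [hB]; positivity
  induction N using Nat.strong_induction_on with
  | _ N ih =>
  by_contra hcon
  push Not at hcon
  -- a smallest counterexample
  have hex : ∃ m : ℕ, ∃ S : Finset V, S.card = m ∧ S.card ≤ N ∧
      (S.card : ℝ) * recU_phi B t N < ((edgesIn G S).card : ℝ) := by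
    obtain ⟨S, h1, h2⟩ := hcon
    exact ⟨S.card, S, rfl, h1, h2⟩
  classical
  obtain ⟨S, hSm, hSN, hS⟩ := Nat.find_spec hex
  have hmin : ∀ T : Finset V, T.card < S.card → ((edgesIn G T).card : ℝ) ≤
      T.card * recU_phi B t N := by
    intro T hT
    by_contra hT'
    push Not at hT'
    have h1 := Nat.find_min hex (m := T.card) (by rw [← hSm]; exact hT)
    exact h1 ⟨T, rfl, by omega, hT'⟩
  obtain ⟨x, hx⟩ : ∃ x, x = recU_phi B t N := ⟨_, rfl⟩
  rw [← hx] at hS hmin
  have hx0 : 0 ≤ x := by rw [hx]; exact recU_phi_nonneg hB0 t N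
  have hne : S.Nonempty := by
    rw [Finset.nonempty_iff_ne_empty]
    rintro rfl
    rw [recU_empty, Finset.card_empty] at hS
    simp at hS
  have hN1 : 1 ≤ N := le_trans (Finset.card_pos.2 hne) hSN
  have hxpow : x ^ t = B * (1 + Real.log N) := by rw [hx]; exact recU_phi_pow hB0 ht N
  have hlogN : 0 ≤ Real.log N := Real.log_natCast_nonneg N
  have hxc : (c₀ : ℝ) + 1 ≤ x := by
    have h1 : ((c₀ : ℝ) + 1) ^ t ≤ x ^ t := by
      rw [hxpow]
      have h2 : ((c₀ : ℝ) + 1) ^ t ≤ B := by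
        rw [hB]
        have : (0 : ℝ) ≤ 4 * t * c₁ := by positivity
        linarith
      nlinarith
    exact le_of_pow_le_pow_left₀ (by omega) hx0 h1
  have hxpos : 0 < x := by
    have : (0 : ℝ) ≤ c₀ := Nat.cast_nonneg _
    linarith
  -- the degrees
  have hdeg : ∀ v ∈ S, ⌊x⌋₊ + 1 ≤ (nbrs G S v).card := by
    intro v hv
    have h1 := edges_erase G hv
    have h2 := hmin (S.erase v) (Finset.card_erase_lt_of_mem hv)
    have h3 : ((S.erase v).card : ℝ) = S.card - 1 := by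
      rw [Finset.card_erase_of_mem hv, Nat.cast_sub (Finset.card_pos.2 hne), Nat.cast_one]
    rw [h3] at h2
    have h4 : ((edgesIn G S).card : ℝ) ≤ (edgesIn G (S.erase v)).card + (nbrs G S v).card := by
      exact_mod_cast h1
    have h5 : x < ((nbrs G S v).card : ℝ) := by nlinarith
    exact (Nat.floor_lt hx0).2 h5
  have hc0 : c₀ ≤ ⌊x⌋₊ + 1 := by
    have h1 : c₀ ≤ ⌊x⌋₊ := Nat.le_floor (by linarith)
    omega
  obtain ⟨A, hAS, hA1, hA2, hA3⟩ := hcut S (⌊x⌋₊ + 1) hne hc0 hdeg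
  have hcard : A.card + (S \ A).card = S.card := by
    rw [add_comm]
    exact Finset.card_sdiff_add_card_eq_card hAS
  obtain ⟨M, hM⟩ : ∃ M, M = 3 * N / 4 := ⟨_, rfl⟩
  have hSpos : 0 < S.card := Finset.card_pos.2 hne
  have hMN : M < N := by omega
  have hM1 : 1 ≤ M := by omega
  have hAM : A.card ≤ M := by omega
  have hAM2 : (S \ A).card ≤ M := by omega
  obtain ⟨y, hy⟩ : ∃ y, y = recU_phi B t M := ⟨_, rfl⟩
  have hy0 : 0 ≤ y := by rw [hy]; exact recU_phi_nonneg hB0 t M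
  have hypow : y ^ t = B * (1 + Real.log M) := by rw [hy]; exact recU_phi_pow hB0 ht M
  have e1 := ih M hMN A hAM
  have e2 := ih M hMN (S \ A) hAM2
  rw [← hy] at e1 e2
  have hlog : Real.log M ≤ Real.log N - 1 / 4 := by
    have h1 : (M : ℝ) ≤ N / (4 / 3) := by
      have h2 : 4 * M ≤ 3 * N := by omega
      have h3 : (4 : ℝ) * M ≤ 3 * N := by exact_mod_cast h2
      linarith
    have h4 := Real.log_le_log (by exact_mod_cast hM1) h1
    rw [Real.log_div (by positivity) (by norm_num)] at h4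
    linarith [recU_log]
  have hkey : (c₁ : ℝ) ≤ (x - y) * x ^ (t - 1) := by
    refine recU_pow ht hxpos hy0 (b := B / 4) ?_ ?_
    · rw [hypow, hxpow]
      nlinarith
    · rw [hB]
      have : (0 : ℝ) ≤ ((c₀ : ℝ) + 1) ^ t := by positivity
      linarith
  have hxy : 0 ≤ x - y := by
    by_contra hneg
    push Not at hneg
    have h1 : x ^ t < y ^ t := pow_lt_pow_left₀ (by linarith) hx0 (by omega)
    rw [hypow, hxpow] at h1
    nlinarith
  have ha : x ≤ ((⌊x⌋₊ + 1 : ℕ) : ℝ) := by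
    push_cast
    exact (Nat.lt_floor_add_one x).le
  have hapow : x ^ (t - 1) ≤ ((⌊x⌋₊ + 1 : ℕ) : ℝ) ^ (t - 1) := pow_le_pow_left₀ hx0 ha _
  have hebt : (ebt G A (S \ A) : ℝ) ≤ S.card * (x - y) := by
    have h1 : ((⌊x⌋₊ + 1 : ℕ) : ℝ) ^ (t - 1) * (ebt G A (S \ A) : ℝ) ≤ c₁ * S.card := by
      exact_mod_cast hA3
    have h2 : (c₁ : ℝ) * S.card ≤ ((⌊x⌋₊ + 1 : ℕ) : ℝ) ^ (t - 1) * (S.card * (x - y)) := by
      calc (c₁ : ℝ) * S.card ≤ (x - y) * x ^ (t - 1) * S.card :=
            mul_le_mul_of_nonneg_right hkey (Nat.cast_nonneg _)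
        _ ≤ (x - y) * ((⌊x⌋₊ + 1 : ℕ) : ℝ) ^ (t - 1) * S.card :=
            mul_le_mul_of_nonneg_right (mul_le_mul_of_nonneg_left hapow hxy) (Nat.cast_nonneg _)
        _ = _ := by ring
    exact le_of_mul_le_mul_left (h1.trans h2) (by positivity)
  have hsplit := edges_split G hAS
  have hs : ((edgesIn G S).card : ℝ) ≤ (edgesIn G A).card + (edgesIn G (S \ A)).card +
      (ebt G A (S \ A) : ℝ) := by exact_mod_cast hsplit
  have hcardR : (A.card : ℝ) + ((S \ A).card : ℝ) = S.card := by exact_mod_cast hcard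
  have hfin : (A.card : ℝ) * y + ((S \ A).card : ℝ) * y + S.card * (x - y) = S.card * x := by
    rw [← hcardR]
    ring
  linarith

/-- The recursion: cuts with `c₁ |S| / a^(t-1)` edges give the bound `n (B (1 + log n))^(1/t)`. -/
theorem rec_bound [Fintype V] [DecidableEq V] (G : SimpleGraph V) {t : ℕ} (ht : 1 ≤ t) {c₀ c₁ : ℕ}
    (hcut : ∀ (S : Finset V) (a : ℕ), S.Nonempty → c₀ ≤ a → (∀ v ∈ S, a ≤ (nbrs G S v).card) →
      ∃ A ⊆ S, 4 * A.card ≤ 3 * S.card ∧ 4 * (S \ A).card ≤ 3 * S.card ∧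
        a ^ (t - 1) * ebt G A (S \ A) ≤ c₁ * S.card) (S : Finset V) :
    ((edgesIn G S).card : ℝ) ≤
      S.card * ((((c₀ : ℝ) + 1) ^ t + 4 * t * c₁) * (1 + Real.log S.card)) ^ (1 / (t : ℝ)) :=
  recU_main G ht hcut _ rfl S.card S le_rfl

end Pool.Agent.MP_245544_coT
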