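import Pool.Agent.Lib.MP_245544_coU.Arms
import Pool.Agent.Lib.MP_245544_coU.Piece
import Pool.Agent.Lib.MP_245544_coU.Forest

namespace Pool.Agent.MP_245544_coT

variable {V : Type} {G : SimpleGraph V}

/-- The pairs (vertex of `Z`, root below it): half plane version of Lemma C. -/
theorem root_bound (D : Drawing G) {m : ℕ} (hD : D.NearPlane m) {col : V → Bool}
    (hcol : ∀ u v, G.Adj u v → col u ≠ col v) {δ c : ℝ} (hc : ∀ v, fn δ (D.pt v) ≠ c)
    {C : ℕ → Finset V} {π : V → V} {i : ℕ} (hF : Forest G C π i) (him : 4 * (i + 1) ≤ m) {b : Bool}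
    {W Z : Finset V} (hW : W ⊆ C i) (hWb : ∀ v ∈ W, col v = b) (hZC : ∀ z ∈ Z, ∀ j < i, z ∉ C j)
    (hZW : ∀ z ∈ Z, ∀ v ∈ W, G.Adj z v → ∀ y ∈ D.arc s(z, v), c < fn δ y)
    (hup : ∀ j < i, ∀ v ∈ C (j + 1), ∀ y ∈ D.arc s(v, π v), c < fn δ y)
    (hray : ∀ x ∈ C 0, ∃ z, G.Adj x z ∧ ∃ y ∈ D.arc s(x, z), fn δ y ≤ c) :
    (prs G π W Z i).card ≤ 3 * Z.card + W.card := by
  classical
  obtain ⟨H, hH⟩ : ∃ H, H = prs G π W Z i := ⟨_, rfl⟩
  rw [← hH]
  have hmZ : ∀ z q, (z, q) ∈ H → z ∈ Z := by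
    intro z q h
    rw [hH] at h
    exact (mem_prs.1 h).1
  have hex : ∀ z q, ∃ v, (z, q) ∈ H → v ∈ W ∧ G.Adj z v ∧ π^[i] v = q := by
    intro z q
    by_cases h : (z, q) ∈ H
    · have h1 := h
      rw [hH] at h1
      obtain ⟨v, hv1, hv2, hv3⟩ := (mem_prs.1 h1).2
      exact ⟨v, fun _ => ⟨hv1, hv2, hv3⟩⟩
    · exact ⟨z, fun h' => (h h').elim⟩
  choose v hv using hex
  have hiadj : ∀ w ∈ W, ∀ l < i, G.Adj (π^[l] w) (π^[l + 1] w) := fun w hw l hl =>
    hF.iter_adj (hW hw) hl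
  -- the arms are in the open half plane
  have harm : ∀ z q, (z, q) ∈ H → ∀ y ∈ arm D π z (v z q) i, c < fn δ y := by
    intro z q h y hy
    obtain ⟨h1, h2, h3⟩ := hv z q h
    rcases hy with hy | ⟨l, hl, hy⟩
    · exact hZW z (hmZ z q h) _ h1 h2 y hy
    · have h4 := hF.iter_mem (hW h1) hl.le
      have h5 : i - l = (i - l - 1) + 1 := by omega
      rw [h5] at h4
      rw [Function.iterate_succ_apply'] at hy
      exact hup (i - l - 1) (by omega) _ h4 y hy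
  have hjarm : ∀ z q, (z, q) ∈ H → JoinedIn (arm D π z (v z q) i) (D.pt z) (D.pt q) := by
    intro z q h
    obtain ⟨h1, h2, h3⟩ := hv z q h
    have h4 := joinedIn_arm (D := D) h2 (hiadj _ h1)
    rwa [h3] at h4
  have hpt : ∀ z q, (z, q) ∈ H → c < fn δ (D.pt q) := by
    intro z q h
    exact harm z q h _ (hjarm z q h).target_mem
  have hroot : ∀ z q, (z, q) ∈ H → q ∈ C 0 := by
    intro z q h
    obtain ⟨h1, h2, h3⟩ := hv z q h
    have h4 := hF.iter_mem (hW h1) (le_refl i)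
    rwa [Nat.sub_self, h3] at h4
  -- the rays
  have hexr : ∀ q : V, ∃ (r : Set (ℝ × ℝ)) (e : ℝ × ℝ) (w : V), (∃ z, (z, q) ∈ H) →
      G.Adj q w ∧ r ⊆ D.arc s(q, w) ∧ (∀ y ∈ r, c ≤ fn δ y) ∧ fn δ e = c ∧
      JoinedIn r (D.pt q) e ∧ D.pt w ∉ r := by
    intro q
    by_cases hq : ∃ z, (z, q) ∈ H
    · obtain ⟨z, hz⟩ := hq
      obtain ⟨w, hw, hy⟩ := hray q (hroot z q hz)
      obtain ⟨r, e, h4, h5, h6, h7, h8⟩ := D.exists_ray (δ := δ) (c := c) hw (hpt z q hz)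
        (hc w) hy
      exact ⟨r, e, w, fun _ => ⟨hw, h4, h5, h6, h7, h8⟩⟩
    · exact ⟨∅, 0, q, fun h => (hq h).elim⟩
  choose r e w hr using hexr
  have hcolr : ∀ z q z' q', (z, q) ∈ H → (z', q') ∈ H → col q = col q' := by
    intro z q z' q' h h'
    obtain ⟨h1, -, h3⟩ := hv z q h
    obtain ⟨h1', -, h3'⟩ := hv z' q' h'
    have h4 := hF.iter_col hcol (hW h1) (hW h1') ((hWb _ h1).trans (hWb _ h1').symm) (le_refl i)
    rwa [h3, h3'] at h4
  have hPr : ∀ z q, (z, q) ∈ H → ∀ b', col q = b' → Pcs D col b' {q} (r q) := by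
    intro z q h b' hb'
    obtain ⟨h1, h2, -, -, -, h6⟩ := hr q ⟨z, h⟩
    exact pcs_ray h1 h2 h6 hb'
  have hmemV : ∀ z q, (z, q) ∈ H → q ∈ armV π z (v z q) i := by
    intro z q h
    obtain ⟨-, -, h3⟩ := hv z q h
    exact Or.inr ⟨i, le_refl i, h3.symm⟩
  have hPK : ∀ z q, (z, q) ∈ H → ∀ b', col q = b' →
      Pcs D col b' (armV π z (v z q) i) (arm D π z (v z q) i ∪ r q) := by
    intro z q h b' hb'
    obtain ⟨h1, h2, h3⟩ := hv z q h
    refine Pcs.union (pcs_arm h2 (hiadj _ h1)) ((hPr z q h b' hb').mono ?_)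
    rw [Set.singleton_subset_iff]
    exact hmemV z q h
  have hrz : ∀ z q, (z, q) ∈ H → ∀ y ∈ armV π z (v z q) i, Reach G z y (i + 1) := by
    intro z q h y hy
    obtain ⟨h1, h2, h3⟩ := hv z q h
    exact hF.reach_z (hW h1) h2 (le_refl i) hy
  have hbd := arms_bound (H := H) (δ := δ) (c := c) (e := e) (pt := D.pt)
    (K := fun z q => arm D π z (v z q) i ∪ r q) ?_ ?_ ?_ ?_ ?_
  · refine hbd.trans (Nat.add_le_add (Nat.mul_le_mul_left 3 (Finset.card_le_card ?_)) ?_)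
    · intro z hz
      obtain ⟨⟨z', q⟩, hx, rfl⟩ := Finset.mem_image.1 hz
      exact hmZ z' q hx
    · have h1 : H.image Prod.snd ⊆ W.image (π^[i]) := by
        intro q hq
        obtain ⟨⟨z, q'⟩, hx, rfl⟩ := Finset.mem_image.1 hq
        obtain ⟨h2, -, h3⟩ := hv z q' hx
        exact Finset.mem_image.2 ⟨_, h2, h3⟩
      exact (Finset.card_le_card h1).trans Finset.card_image_le
  · rintro ⟨z, q⟩ h y (hy | hy)
    · exact (harm z q h y hy).le
    · exact (hr q ⟨z, h⟩).2.2.1 y hy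
  · rintro ⟨z, q⟩ h
    exact (hr q ⟨z, h⟩).2.2.2.1
  · rintro ⟨z, q⟩ h
    exact ((hr q ⟨z, h⟩).2.2.2.2.1.symm.mono Set.subset_union_right).trans
      ((hjarm z q h).symm.mono Set.subset_union_left)
  · intro p p' q a u hpp h1 h2 h3 h4 hau
    have hca : col u = col a := hcolr _ _ _ _ h4 h3
    obtain ⟨ha1, ha2, ha3⟩ := hv p a h3
    obtain ⟨hu1, hu2, hu3⟩ := hv p' u h4
    have hav : ∀ s s' x, (s, x) ∈ H → ∀ y, (s', y) ∈ H → ∀ l ≤ i, s ≠ π^[l] (v s' y) := by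
      intro s s' x hs y hy l hl hcon
      obtain ⟨hs1, hs2, -⟩ := hv s x hs
      obtain ⟨hy1, hy2, -⟩ := hv s' y hy
      rcases Nat.eq_zero_or_pos l with h0 | h0
      · rw [h0, Function.iterate_zero_apply] at hcon
        exact hcol _ _ hs2 ((congrArg col hcon).trans ((hWb _ hy1).trans (hWb _ hs1).symm))
      · have h5 := hF.iter_mem (hW hy1) hl
        rw [← hcon] at h5
        exact hZC s (hmZ s x hs) (i - l) (by omega) h5
    refine pcs_disjoint hD hcol (hPK p a h3 (col a) rfl) (hPK p' u h4 (col a) hca) ?_ ?_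
    · refine hF.armV_disjoint (hW ha1) (hW hu1) (le_refl i) ?_ hpp ?_ ?_
      · rw [ha3, hu3]
        exact hau
      · exact hav p p' a h3 u h4
      · exact hav p' p u h4 a h3
    · intro y hy y' hy'
      have e1 := (hrz p a h3 y hy).symm
      have e2 := hrz p q h1 q (hmemV p q h1)
      have e3 := (hrz p' q h2 q (hmemV p' q h2)).symm
      have e4 := hrz p' u h4 y' hy'
      exact (((e1.trans e2).trans e3).trans e4).mono (by omega)
  · intro p a u h1 h2 hau heq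
    have hd : Disjoint (r a) (r u) := by
      refine pcs_disjoint hD hcol (hPr p a h1 (col a) rfl)
        (hPr p u h2 (col a) (hcolr _ _ _ _ h2 h1)) ?_ ?_
      · rw [Set.disjoint_singleton]
        exact hau
      · intro x hx y hy
        rw [Set.mem_singleton_iff] at hx hy
        rw [hx, hy]
        have e1 := (hrz p a h1 a (hmemV p a h1)).symm
        have e2 := hrz p u h2 u (hmemV p u h2)
        exact (e1.trans e2).mono (by omega)
    have h3 : e a ∈ r a := (hr a ⟨p, h1⟩).2.2.2.2.1.target_mem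
    have h4 : e u ∈ r u := (hr u ⟨p, h2⟩).2.2.2.2.1.target_mem
    rw [← heq] at h4
    exact Set.disjoint_left.1 hd h3 h4

end Pool.Agent.MP_245544_coT
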