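import Pool.Agent.Lib.MP_245544_coU.TieU

namespace Pool.Agent.MP_245544_coT

variable {V : Type} {G : SimpleGraph V}

private theorem exists_third {α β : Type*} [DecidableEq β] [LinearOrder α] (s : Finset β)
    (hs : s.Nonempty) (l : β → α) :
    ∃ q : α, 3 * (s.filter fun v => l v < q).card ≤ s.card ∧
      s.card ≤ 3 * (s.filter fun v => l v ≤ q).card := by
  classical
  obtain ⟨C, hC⟩ : ∃ C : Finset β,
      C = s.filter fun x => s.card ≤ 3 * (s.filter fun v => l v ≤ l x).card := ⟨_, rfl⟩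
  have hCne : C.Nonempty := by
    obtain ⟨x, hx, hmax⟩ := s.exists_max_image l hs
    refine ⟨x, ?_⟩
    rw [hC, Finset.mem_filter]
    refine ⟨hx, ?_⟩
    have : (s.filter fun v => l v ≤ l x) = s := by
      rw [Finset.filter_eq_self]
      exact hmax
    rw [this]
    omega
  obtain ⟨x, hx, hmin⟩ := C.exists_min_image l hCne
  have hx' := hx
  rw [hC, Finset.mem_filter] at hx'
  refine ⟨l x, ?_, hx'.2⟩
  rcases (s.filter fun v => l v < l x).eq_empty_or_nonempty with h | h
  · rw [h]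
    simp
  · obtain ⟨y, hy, hymax⟩ := (s.filter fun v => l v < l x).exists_max_image l h
    have hys := (Finset.mem_filter.1 hy).1
    have hyx := (Finset.mem_filter.1 hy).2
    have hyC : y ∉ C := fun hyC => absurd (hmin y hyC) (not_le.2 hyx)
    have h1 : ¬ s.card ≤ 3 * (s.filter fun v => l v ≤ l y).card := fun h2 =>
      hyC (by rw [hC, Finset.mem_filter]; exact ⟨hys, h2⟩)
    have h3 : (s.filter fun v => l v < l x).card ≤ (s.filter fun v => l v ≤ l y).card := by
      apply Finset.card_le_card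
      intro v hv
      exact Finset.mem_filter.2 ⟨(Finset.mem_filter.1 hv).1, hymax v hv⟩
    omega

/-- A balanced threshold. -/
theorem exists_thr [Finite V] [DecidableEq V] (D : Drawing G) (hD : D.NearPlane 4) {col : V → Bool}
    (hcol : ∀ u v, G.Adj u v → col u ≠ col v) {S : Finset V} (hS : S.Nonempty) {a : ℕ} (ha : 14 ≤ a)
    (hdeg : ∀ v ∈ S, a ≤ (nbrs G S v).card) :
    ∃ (L : Finset V) (δ c : ℝ), Thr D S L δ c ∧ 3 * L.card ≤ 2 * S.card ∧
      3 * (S \ L).card ≤ 2 * S.card := by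
  classical
  obtain ⟨key, hkey⟩ := D.exists_key
  have hpick : ∀ v : V, ∃ w : V, v ∈ S → (w ∈ nbrs G S v ∧
      ∀ u ∈ nbrs G S v, toLex (key s(v, w)) ≤ toLex (key s(v, u))) := by
    intro v
    by_cases hv : v ∈ S
    · have hne : (nbrs G S v).Nonempty := by
        rw [← Finset.card_pos]
        have := hdeg v hv
        omega
      obtain ⟨w, hw, hmin⟩ :=
        (nbrs G S v).exists_min_image (fun u => toLex (key s(v, u))) hne
      exact ⟨w, fun _ => ⟨hw, hmin⟩⟩
    · exact ⟨v, fun h => absurd h hv⟩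
  choose pick hp using hpick
  obtain ⟨lam, hlam⟩ : ∃ lam : V → Lex (ℝ × ℝ), ∀ v, lam v = toLex (key s(v, pick v)) :=
    ⟨fun v => toLex (key s(v, pick v)), fun _ => rfl⟩
  obtain ⟨q, hq1, hq2⟩ := exists_third S hS lam
  have hadj : ∀ v ∈ S, pick v ∈ S ∧ G.Adj v (pick v) := fun v hv => mem_nbrs.1 (hp v hv).1
  have hT : (a - 2) * (S.filter fun v => lam v = q).card ≤ 4 * S.card := by
    refine tie_card D hD hcol hdeg (Finset.filter_subset _ _) (ofLex q) ?_
    intro v hv
    obtain ⟨hvS, hvq⟩ := Finset.mem_filter.1 hv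
    obtain ⟨h1, h2⟩ := hadj v hvS
    refine ⟨pick v, h1, h2, ?_⟩
    rw [← hvq, hlam]
    exact (hkey _ h2).1
  have hT' : 3 * (S.filter fun v => lam v = q).card ≤ S.card := by
    have h12 : 12 * (S.filter fun v => lam v = q).card ≤
        (a - 2) * (S.filter fun v => lam v = q).card := Nat.mul_le_mul_right _ (by omega)
    omega
  have hL : (S.filter fun v => lam v ≤ q).card ≤
      (S.filter fun v => lam v < q).card + (S.filter fun v => lam v = q).card := by
    refine le_trans (Finset.card_le_card ?_) (Finset.card_union_le _ _)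
    intro v hv
    obtain ⟨hvS, hvq⟩ := Finset.mem_filter.1 hv
    rcases lt_or_eq_of_le hvq with h | h
    · exact Finset.mem_union_left _ (Finset.mem_filter.2 ⟨hvS, h⟩)
    · exact Finset.mem_union_right _ (Finset.mem_filter.2 ⟨hvS, h⟩)
  have hsub : (S.filter fun v => lam v ≤ q) ⊆ S := Finset.filter_subset _ _
  have hcard : (S \ (S.filter fun v => lam v ≤ q)).card + (S.filter fun v => lam v ≤ q).card =
      S.card := Finset.card_sdiff_add_card_eq_card hsub
  obtain ⟨δ, c, hδ, hc⟩ := D.exists_halfplane hkey (ofLex q)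
  refine ⟨S.filter fun v => lam v ≤ q, δ, c, ⟨hsub, hc, ?_, ?_⟩, by omega, by omega⟩
  · intro v hv hvL u hu hvu y hy
    by_contra hcon
    apply hvL
    refine Finset.mem_filter.2 ⟨hv, ?_⟩
    have h1 := (hδ s(v, u) hvu).1 ⟨y, hy, not_lt.1 hcon⟩
    rw [hlam]
    exact ((hp v hv).2 u (mem_nbrs.2 ⟨hu, hvu⟩)).trans h1
  · intro x hx
    obtain ⟨hxS, hxq⟩ := Finset.mem_filter.1 hx
    obtain ⟨h1, h2⟩ := hadj x hxS
    refine ⟨pick x, h2, ?_⟩
    apply (hδ s(x, pick x) h2).2
    rw [hlam] at hxq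
    exact hxq

end Pool.Agent.MP_245544_coT
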