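import Pool.Agent.Lib.MP_245544_coU.Desc

namespace Pool.Agent.MP_245544_coT

variable {V : Type} {G : SimpleGraph V}

/-- Few vertices are neighbours of a given vertex. -/
private theorem tie_nbrs [Finite V] (D : Drawing G) (hD : D.NearPlane 4) {col : V → Bool}
    (hcol : ∀ u v, G.Adj u v → col u ≠ col v) {S : Finset V} {a : ℕ}
    (ha : ∀ v ∈ S, a ≤ (nbrs G S v).card) (w₀ : V) :
    (a - 2) * (nbrs G S w₀).card ≤ 3 * S.card := by
  classical
  set N : Finset V := nbrs G S w₀ with hN
  set Z : Finset V := S.erase w₀ with hZ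
  set C : ℕ → Finset V := fun j => if j = 0 then {w₀} else N with hC
  have hF : Forest G C (fun _ => w₀) 1 := by
    refine ⟨?_, ?_, ?_⟩
    · have hd : Disjoint ({w₀} : Finset V) N := by
        rw [Finset.disjoint_singleton_left]
        intro h
        exact (mem_nbrs.1 h).2.ne rfl
      intro j hj l hl hjl
      rcases Nat.eq_zero_or_pos j with rfl | hj0
      · have hl0 : l ≠ 0 := fun h => hjl h.symm
        simp only [hC, if_pos rfl, if_neg hl0]
        exact hd
      · have hl0 : l = 0 := by omega
        have hj1 : j ≠ 0 := by omega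
        subst hl0
        simp only [hC, if_pos rfl, if_neg hj1]
        exact hd.symm
    · intro j hj v _
      have hj0 : j = 0 := by omega
      subst hj0
      simp [hC]
    · intro j hj v hv
      have hv' : v ∈ N := by
        simpa [hC] using hv
      exact (mem_nbrs.1 hv').2.symm
  have hmain := desc_bound D hD hcol hF (b := !(col w₀)) (W := N) (Z := Z) (by simp [hC])
    (by
      intro v hv
      have h1 := hcol _ _ (mem_nbrs.1 hv).2
      revert h1
      cases col w₀ <;> cases col v <;> simp)
    (by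
      intro z hz j hj
      have hj0 : j = 0 := by omega
      subst hj0
      simp only [hC, if_pos rfl, Finset.mem_singleton]
      exact Finset.ne_of_mem_erase hz) (n := 0) (by omega) (by omega)
  have h1 : (prs G (fun _ => w₀) N Z (0 + 1)).card ≤ S.card := by
    have h2 : prs G (fun _ => w₀) N Z (0 + 1) ⊆ Z.image (fun z => (z, w₀)) := by
      intro x hx
      obtain ⟨h3, v, h4, h5, h6⟩ := mem_prs.1 hx
      refine Finset.mem_image.2 ⟨x.1, h3, Prod.ext rfl ?_⟩
      simpa using h6
    exact ((Finset.card_le_card h2).trans Finset.card_image_le).trans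
      (Finset.card_le_card (Finset.erase_subset _ _))
  have h2 : (a - 1) * N.card ≤ (prs G (fun _ => w₀) N Z 0).card := by
    have h3 : ∀ v ∈ N, a - 1 ≤ ((nbrs G S v).erase w₀).card := by
      intro v hv
      have h4 := ha v (mem_nbrs.1 hv).1
      have h5 := Finset.pred_card_le_card_erase (s := nbrs G S v) (a := w₀)
      omega
    have h4 : (N.sigma (fun v => (nbrs G S v).erase w₀)).card ≤
        (prs G (fun _ => w₀) N Z 0).card := by
      refine Finset.card_le_card_of_injOn (fun x => (x.2, x.1)) ?_ ?_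
      · intro x hx
        rw [Finset.mem_coe, Finset.mem_sigma] at hx
        have h5 := mem_nbrs.1 (Finset.mem_of_mem_erase hx.2)
        refine Finset.mem_coe.2 (mem_prs.2 ⟨?_, x.1, hx.1, h5.2.symm, rfl⟩)
        exact Finset.mem_erase.2 ⟨Finset.ne_of_mem_erase hx.2, h5.1⟩
      · rintro ⟨x1, x2⟩ _ ⟨y1, y2⟩ _ hxy
        simp only [Prod.mk.injEq] at hxy
        obtain ⟨rfl, rfl⟩ := hxy
        rfl
    rw [Finset.card_sigma] at h4
    have h5 : N.card • (a - 1) ≤ ∑ v ∈ N, ((nbrs G S v).erase w₀).card :=
      Finset.card_nsmul_le_sum N _ _ h3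
    rw [smul_eq_mul, mul_comm] at h5
    exact h5.trans h4
  have h3 : (a - 1) * N.card ≤ 3 * S.card + N.card := by omega
  rcases Nat.lt_or_ge a 2 with h4 | h4
  · have h5 : a - 2 = 0 := by omega
    rw [h5]
    omega
  · obtain ⟨k, rfl⟩ : ∃ k, a = k + 2 := ⟨a - 2, by omega⟩
    have h5 : k + 2 - 1 = k + 1 := by omega
    have h6 : k + 2 - 2 = k := by omega
    rw [h5] at h3
    rw [h6]
    nlinarith

/-- Few vertices have an edge through a given point. -/
theorem tie_card [Finite V] (D : Drawing G) (hD : D.NearPlane 4) {col : V → Bool}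
    (hcol : ∀ u v, G.Adj u v → col u ≠ col v) {S T : Finset V} {a : ℕ}
    (ha : ∀ v ∈ S, a ≤ (nbrs G S v).card) (hTS : T ⊆ S) (q₀ : ℝ × ℝ)
    (hT : ∀ v ∈ T, ∃ w ∈ S, G.Adj v w ∧ q₀ ∈ D.arc s(v, w)) :
    (a - 2) * T.card ≤ 4 * S.card := by
  classical
  rcases T.eq_empty_or_nonempty with rfl | ⟨t, ht⟩
  · simp
  by_cases hq : ∃ w₀, q₀ = D.pt w₀
  · obtain ⟨w₀, rfl⟩ := hq
    have hw : ∀ v ∈ T, w₀ ∈ S ∧ (v = w₀ ∨ G.Adj w₀ v) := by
      intro v hv
      obtain ⟨w, hw, hvw, hmem⟩ := hT v hv
      have h1 := D.avoid s(v, w) hvw w₀ hmem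
      rw [Sym2.mem_iff] at h1
      rcases h1 with rfl | rfl
      · exact ⟨hTS hv, Or.inl rfl⟩
      · exact ⟨hw, Or.inr hvw.symm⟩
    have hw₀ : w₀ ∈ S := (hw t ht).1
    have h1 : T ⊆ insert w₀ (nbrs G S w₀) := by
      intro v hv
      rcases (hw v hv).2 with h | h
      · rw [h]
        exact Finset.mem_insert_self _ _
      · exact Finset.mem_insert_of_mem (mem_nbrs.2 ⟨hTS hv, h⟩)
    have h2 : T.card ≤ (nbrs G S w₀).card + 1 :=
      (Finset.card_le_card h1).trans (Finset.card_insert_le _ _)
    have h3 := tie_nbrs D hD hcol ha w₀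
    have h4 : (nbrs G S w₀).card ≤ S.card := by
      refine Finset.card_le_card ?_
      intro v hv
      exact (mem_nbrs.1 hv).1
    have h5 := ha w₀ hw₀
    have h6 : (a - 2) * T.card ≤ (a - 2) * ((nbrs G S w₀).card + 1) := Nat.mul_le_mul_left _ h2
    rw [mul_add, mul_one] at h6
    omega
  · have hdis : ∀ v ∈ T, ∀ v' ∈ T, v ≠ v' → col v = col v' →
        Disjoint (nbrs G S v) (nbrs G S v') := by
      intro v hv v' hv' hne hc
      rw [Finset.disjoint_left]
      intro u hu hu'
      obtain ⟨w, hw, hvw, hmem⟩ := hT v hv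
      obtain ⟨w', hw', hvw', hmem'⟩ := hT v' hv'
      have h1 := (mem_nbrs.1 hu).2
      have h2 := (mem_nbrs.1 hu').2
      have h3 : s(v, w) ≠ s(v', w') := by
        intro h
        rw [Sym2.eq_iff] at h
        rcases h with ⟨h, -⟩ | ⟨h, -⟩
        · exact hne h
        · exact hcol _ _ hvw' (by rw [← hc, h])
      obtain ⟨y, -, -, hy⟩ := hD.inter (e := s(v, w)) (e' := s(v', w')) hvw hvw' h3
        ⟨v, Sym2.mem_mk_left _ _, v', Sym2.mem_mk_left _ _, .cons h1 (.cons h2.symm .nil), by simp⟩
        hmem hmem'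
      exact hq ⟨y, hy⟩
    have hb : ∀ b : Bool, a * (T.filter (fun v => col v = b)).card ≤ S.card := by
      intro b
      have h1 : (T.filter (fun v => col v = b)).card • a ≤
          ∑ v ∈ T.filter (fun v => col v = b), (nbrs G S v).card := by
        refine Finset.card_nsmul_le_sum _ _ _ ?_
        intro v hv
        exact ha v (hTS (Finset.mem_filter.1 hv).1)
      have h2 : ((T.filter (fun v => col v = b)).biUnion (fun v => nbrs G S v)).card =
          ∑ v ∈ T.filter (fun v => col v = b), (nbrs G S v).card := by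
        refine Finset.card_biUnion ?_
        intro v hv v' hv' hne
        have hv := Finset.mem_filter.1 hv
        have hv' := Finset.mem_filter.1 hv'
        exact hdis v hv.1 v' hv'.1 hne (hv.2.trans hv'.2.symm)
      rw [← h2, smul_eq_mul, mul_comm] at h1
      refine h1.trans (Finset.card_le_card ?_)
      intro v hv
      obtain ⟨u, -, hu⟩ := Finset.mem_biUnion.1 hv
      exact (mem_nbrs.1 hu).1
    have h1 := hb true
    have h2 := hb false
    have h3 : (T.filter (fun v => col v = true)).card + (T.filter (fun v => col v = false)).card =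
        T.card := by
      have h4 := Finset.card_filter_add_card_filter_not (s := T) (fun v => col v = true)
      simpa [Bool.not_eq_true] using h4
    have h4 : a * T.card ≤ 2 * S.card := by
      rw [← h3, mul_add]
      omega
    have h5 : (a - 2) * T.card ≤ a * T.card := Nat.mul_le_mul_right _ (Nat.sub_le _ _)
    omega

end Pool.Agent.MP_245544_coT
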